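import Pool.Agent.Lib.DR.IfaceC
import Pool.Agent.Lib.DR.O.O4
import Pool.Agent.Lib.DS.C.All
import Pool.Agent.Lib.DN.CV.Bas
import Pool.Agent.Lib.DI.F.VPB

/-!
# Part C for DR (`2` ramified): `S_C1`, `S_C2`, `S_C3`, `S_C4`, `S_C6`, `S_C7`, `S_C8` from `DS/IfaceC.lean` (author helper33)

Modulus `2 f`, level `32 M`: `D (2 f)² = 16 n f²` divides `32 dO n f²`.
-/

set_option autoImplicit false

open scoped Pointwise Topology nonZeroDivisors
open Filter

noncomputable section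

namespace Pool.Agent.DR

open Pool.Agent.MuZ Pool.Agent.FW NumberField Pool.Agent.DN
open Pool.Agent.DI (io ofC io_inj exists_io io_ofC ofC_io VP MP UP TP ex sqr sqr_sq kap)

variable {n t : ℕ}

/-! ## The conditions -/

theorem fm_g [SqN n t] {f : ℕ} {m : Ideal (OO n t)} (h : FM f m) : DS.FMg (2 * f) m := by
  have h1 := h.odd.pos
  exact ⟨by omega, dvd_mul_right 2 f, Dvd.dvd.mul_left h.dvd 2, h.ne, CV_pri_mulN h.two h.cop⟩

theorem fb_g {f : ℕ} {b : Ideal (OO n t)} (h : FB f b) : DS.FBg (2 * f) b := ⟨h.ne, h.cop⟩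

theorem g_fb {f : ℕ} {b : Ideal (OO n t)} (h : DS.FBg (2 * f) b) : FB f b := ⟨h.ne, h.cop⟩

/-- `D` and the odd part of `n`. -/
theorem dk_dO [Rmf n t] : Dk n t = 4 * n ∧ dO n ∣ n ∧ n ∣ 2 * dO n ∧ Odd (dO n) ∧ 0 < dO n := by
  have ht := Rmf.zero (n := n) (t := t)
  have h4 := (sO4 n t).1
  unfold Dk dO
  subst ht
  refine ⟨by simp, ?_, ?_, ?_, ?_⟩
  · split_ifs with h
    · exact Nat.div_dvd_of_dvd (Nat.dvd_of_mod_eq_zero h)
    · exact dvd_rfl
  · split_ifs with h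
    · rw [Nat.mul_div_cancel' (Nat.dvd_of_mod_eq_zero h)]
    · exact Dvd.intro_left 2 rfl
  · split_ifs with h
    · rw [Nat.odd_iff]
      omega
    · rw [Nat.odd_iff]
      omega
  · split_ifs with h
    · omega
    · omega

theorem lv_g [Rmf n t] {f M : ℕ} {m : Ideal (OO n t)} {R : Finset (Ideal (OO n t))}
    (h : IsLv f m R M) : DS.IsLg (2 * f) m R (32 * M) := by
  have h1 := h.three
  obtain ⟨hD, -, hn, -, -⟩ := dk_dO (n := n) (t := t)
  refine ⟨by omega, ?_⟩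
  unfold DS.levg
  have h2 := h.dvd
  unfold lev at h2
  rw [hD]
  have h3 : 4 * n * (2 * f) ^ 2 * (NI m * ∏ b ∈ R, NI b) ^ 3 ∣
      4 * (2 * dO n) * (2 * f) ^ 2 * (NI m * ∏ b ∈ R, NI b) ^ 3 :=
    mul_dvd_mul_right (mul_dvd_mul_right (mul_dvd_mul_left 4 hn) _) _
  refine dvd_trans h3 ?_
  have e : 4 * (2 * dO n) * (2 * f) ^ 2 * (NI m * ∏ b ∈ R, NI b) ^ 3 =
      32 * (dO n * f ^ 2 * (NI m * ∏ b ∈ R, NI b) ^ 3) := by ring
  rw [e]
  exact mul_dvd_mul_left 32 h2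

theorem lv_nm {f M : ℕ} {m : Ideal (OO n t)} {R : Finset (Ideal (OO n t))} (h : IsLv f m R M) :
    NI m ∣ M := by
  refine dvd_trans ?_ h.dvd
  refine Dvd.dvd.mul_left ?_ _
  exact dvd_trans (dvd_mul_right _ _) (dvd_pow_self _ (by norm_num))

/-- `c r + d ≠ 0` if `M ∣ c`, `M > 1` and the denominator of `r` is prime to `M`. -/
theorem den_ne {M : ℕ} (hM : 1 < M) {a b' c d : ℤ} (hG : a * d - b' * c = 1) (hc : (M : ℤ) ∣ c)
    {r : ℚ} (hr : r.den.Coprime M) : (c : ℚ) * r + d ≠ 0 := by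
  intro h0
  have h1 : (c : ℤ) * r.num = -d * r.den := by
    have h2 : (r.den : ℚ) ≠ 0 := by exact_mod_cast r.den_nz
    have h3 : (c : ℚ) * (r.num / r.den) + d = 0 := by rwa [Rat.num_div_den]
    have h4 : (c : ℚ) * r.num = -d * r.den := by
      field_simp at h3
      linear_combination h3
    exact_mod_cast h4
  have h2 : (M : ℤ) ∣ d * r.den := by
    have h3 : (M : ℤ) ∣ -d * r.den := by
      rw [← h1]
      exact Dvd.dvd.mul_right hc _
    rw [neg_mul] at h3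
    exact (dvd_neg.1 h3)
  have h3 : (M : ℤ) ∣ d :=
    Int.dvd_of_dvd_mul_left_of_gcd_one h2 (by
      have : Int.gcd (M : ℤ) (r.den : ℤ) = 1 := by
        rw [Int.gcd_natCast_natCast]
        exact Nat.Coprime.symm hr
      exact this)
  have h4 : (M : ℤ) ∣ 1 := by
    rw [← hG]
    exact dvd_sub (Dvd.dvd.mul_left h3 _) (Dvd.dvd.mul_left hc _)
  have h5 := Int.le_of_dvd one_pos h4
  omega

/-! ## The statements -/

theorem tC1 (hR : DS.S_R1) : S_C1 := by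
  intro n t _ f M m b hm hb hM a b' c d hG
  obtain ⟨h1, h2, -, -, h5, h6⟩ :=
    DS.aC1 hR n t (2 * f) (32 * M) m b (fm_g hm) (fb_g hb) (lv_g hM) a b' c d hG
  refine ⟨h1, h2, g_fb h5, fun r hr => ?_⟩
  have hM1 : 1 < M := by
    have := hM.three
    omega
  have hc : (M : ℤ) ∣ c := by
    have h9 := hG.2
    exact dvd_trans (Dvd.intro_left 32 rfl) h9
  have h7 := den_ne hM1 hG.1 hc hr
  exact ⟨h7, (h6 r (Nat.Coprime.coprime_dvd_right (lv_nm hM) hr) h7).2⟩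

theorem tC2 (hR : DS.S_R1) : S_C2 := by
  intro n t _ f M m b hm hb hM a b' c d hG hd z hz
  refine DS.aC2 hR n t (2 * f) (32 * M) m b (fm_g hm) (fb_g hb) (lv_g hM) a b' c d hG ?_ z hz
  push_cast
  exact hd

theorem tC3 : S_C3 := by
  intro n t _ f M m b hm hb hM a b' c d hG
  exact DS.aC3 n t (2 * f) (32 * M) m b (fm_g hm) (fb_g hb) (lv_g hM) a b' c d hG

theorem tC4 (hR : DS.S_R1) : S_C4 := by
  intro n t _ f m b hm hb c q hq hqm
  have h := DS.aC4 hR n t (2 * f) m b (fm_g hm) (fb_g hb) c q hq hqm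
  push_cast at h ⊢
  exact h

theorem dvl4 [Rmf n t] (f : ℕ) : DS.Dvl t (2 * f) 4 :=
  Or.inr ⟨Rmf.zero (n := n) (t := t), ⟨f, by ring⟩⟩

theorem tC6 (hR : DS.S_R1) : S_C6 := by
  intro n t _ f m b hm hb
  obtain ⟨h1, h2, h3, h4, h5⟩ := DS.aC6 hR n t (2 * f) m b (fm_g hm) (fb_g hb)
  obtain ⟨h6, h7⟩ := h3 4 (by norm_num) (dvl4 (n := n) f)
  refine ⟨fun b' hb' hr => h1 b' (fb_g hb') hr, h2, fun z hz => ?_, fun r hr => ?_, h4, h5⟩
  · have h8 := h6 z hz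
    have e : ex ((NI (m * b) : ℂ) / ((4 : ℕ) : ℂ)) = Complex.I ^ NI (m * b) := by
      have h9 : ex (1 / 4) = Complex.I := by
        unfold ex
        have h10 : 2 * (Real.pi : ℂ) * Complex.I * (1 / 4) = Real.pi / 2 * Complex.I := by ring
        rw [h10, Complex.exp_pi_div_two_mul_I]
      rw [← h9]
      unfold ex
      rw [← Complex.exp_nat_mul]
      congr 1
      push_cast
      ring
    rw [e] at h8
    push_cast at h8
    exact h8
  · have h8 := h7 r hr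
    push_cast at h8
    exact h8

theorem tC7 : S_C7 := by
  intro n t _ f m b hm hb
  obtain ⟨k1, h2, h3, h4, h5, k2⟩ := DS.aC7 n t (2 * f) m b (fm_g hm) (fb_g hb)
  refine ⟨k1, h2, fun j hj => h3 j 4 (dvl4 (n := n) f) hj, h4, fun j => ⟨(h5 j).1, fun P hP => ?_⟩, k2⟩
  have hP1 : P.IsPrime := hP.1.1
  have hf : VP P ((f : ℕ) : Om) := DI.F.vp_natCast hP1 f
  have h3P : MP P ((2 * f : ℕ) : Om) := by
    push_cast
    exact DI.F.mp_mul_vp hP1 hP.2 hf
  obtain ⟨y, hy, he⟩ := (h5 j).2 P hP.1 h3P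
  refine ⟨f * y, DI.F.vp_mul hP1 hf hy, ?_⟩
  rw [he]
  push_cast
  ring

theorem tC8 (h8 : DS.S_C8) : S_C8 := by
  intro n t _ f m b hm hb r hr τ hτ a ha
  exact h8 n t (2 * f) m b (fm_g hm) (fb_g hb) r hr τ hτ a ha

end Pool.Agent.DR
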