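import Pool.Agent.Lib.DR.C.Spec9

/-!
# Part C for DR, module C9: assembly of the hidden symmetries `S_C9o`, `S_C9e`
-/

set_option autoImplicit false

open scoped Pointwise Topology nonZeroDivisors
open Filter

noncomputable section

namespace Pool.Agent.DR.C

open Pool.Agent.MuZ Pool.Agent.FW NumberField Pool.Agent.DR Pool.Agent.DN
open Pool.Agent.DI (io ofC io_inj exists_io io_ofC ofC_io VP MP UP TP ex sqr sqr_sq kap)
open Pool.Agent.DN.C (rsum PerO Th)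
open Pool.Agent.DS.C (ftp Ts Hs Pf h0 T0 Lg Hg s0)

private theorem C9_g15 (n t : ℕ) [Rmf n t] {f : ℕ} {m b1 : Ideal (OO n t)} (hm : FM f m)
    (hb1 : FB f b1) : G15 (pp n t * b1) := by
  have h2 : NI (pp n t) = 2 := (sO4 n t).2.2.1
  have h3 : PrI (pp n t) 15 := (CV_NI_cop (by norm_num)).2 (by rw [h2]; norm_num)
  have h4 := (CV_fb hm hb1).1
  refine ⟨mul_ne_zero (fun h => ?_) h4.ne, CV_pri_mul h3 h4.cop⟩
  have h5 : NI (pp n t) = 0 := ((aO2 n t).2.2.2.2.2.1 (pp n t)).2 h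
  omega

private theorem C9_mob {M : ℕ} (hM : 2 ≤ M) {r : ℚ} (hr : r.den.Coprime M) :
    (M : ℚ) * r + 1 ≠ 0 ∧ (r / (M * r + 1) : ℚ).den.Coprime M := by
  have hG : G0 (M : ℤ) 1 0 M 1 := ⟨by ring, dvd_refl _⟩
  obtain ⟨-, -, h1, h2⟩ := CV_mob hM hG hr
  push_cast at h1 h2
  rw [one_mul, add_zero] at h2
  exact ⟨h1, h2⟩

private theorem C9_add {M : ℕ} (hM : 2 ≤ M) {r : ℚ} (hr : r.den.Coprime M) :
    (r + 1).den.Coprime M := by
  refine CV_den_coprime (p := r.num + r.den) (q := (r.den : ℤ))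
    (Nat.isCoprime_iff_coprime.2 hr) hM ?_
  have hden : (r.den : ℚ) ≠ 0 := by exact_mod_cast r.den_ne_zero
  have h3 : r * r.den = r.num := Rat.mul_den_eq_num r
  push_cast
  rw [← h3]
  field_simp

private theorem C9_two {M : ℕ} (hM : 2 ≤ M) {r : ℚ} (hr : r.den.Coprime M) :
    (2 * r).den.Coprime M := by
  refine CV_den_coprime (p := 2 * r.num) (q := (r.den : ℤ))
    (Nat.isCoprime_iff_coprime.2 hr) hM ?_
  have hden : (r.den : ℚ) ≠ 0 := by exact_mod_cast r.den_ne_zero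
  have h3 : r * r.den = r.num := Rat.mul_den_eq_num r
  push_cast
  rw [← h3]
  field_simp

private theorem C9_isc {M : ℕ} (ho : Odd M) : IsCoprime (2 : ℤ) (M : ℤ) := by
  have := Nat.isCoprime_iff_coprime.2 (Nat.coprime_two_left.2 ho)
  exact_mod_cast this

private theorem C9_half {M : ℕ} (hM : 2 ≤ M) (ho : Odd M) (c : ℤ) {r : ℚ} (hr : r.den.Coprime M) :
    ((r + c) / 2).den.Coprime M := by
  refine CV_den_coprime (p := r.num + c * r.den) (q := 2 * (r.den : ℤ))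
    ((C9_isc ho).mul_left (Nat.isCoprime_iff_coprime.2 hr)) hM ?_
  have hden : (r.den : ℚ) ≠ 0 := by exact_mod_cast r.den_ne_zero
  have h3 : r * r.den = r.num := Rat.mul_den_eq_num r
  push_cast
  rw [← h3]
  field_simp

private theorem C9_half0 {M : ℕ} (hM : 2 ≤ M) (ho : Odd M) (c : ℤ) :
    ((c : ℚ) / 2).den.Coprime M :=
  CV_den_coprime (p := c) (q := 2) (C9_isc ho) hM (by push_cast; rfl)

private theorem C9_o (hR : DS.S_R1) (hV : S_Voe) (hP : S_Rp2) (hX : S_Pex) : S_C9o := by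
  intro n t _ f M m b b1 hn hm hpp hL r hr
  obtain ⟨α, α', hx, hxm, hfr, hb0, hb10, hpb0⟩ := hX n t f b b1 hm.odd hm.dvd hpp
  have hM3 := hL.three
  have hM2 : 2 ≤ M := by omega
  have hr1 := C9_add hM2 hr
  obtain ⟨ha, ha'⟩ := C9_mob hM2 hr
  obtain ⟨hc, hc'⟩ := C9_mob hM2 hr1
  refine ⟨ha, hc, ?_⟩
  have hv := (hV n t f M m b b1 α α' hm hpp.fb hpp.fb1 hL hx (hxm m)).1 hn r ha hc
  have hd := lv_nm hL
  have e1 := hP n t f m b hm hpp.fb _ (hc'.coprime_dvd_right hd)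
  have e2 := hP n t f m b hm hpp.fb _ (ha'.coprime_dvd_right hd)
  have e3 := hP n t f m b1 hm hpp.fb1 _ ((C9_two hM2 hr).coprime_dvd_right hd)
  rw [← e1, ← e2, ← e3] at hv
  have hrO := ((hR.1 n t).1 _ (C9_g15 n t hm hpp.fb1)).2.2.2 b1 (CV_fb hm hpp.fb1).1
  have hα : toC α ≠ 0 := toC_ne hx.a0
  apply io_inj
  apply mul_right_cancel₀ hb0
  rw [map_sub, map_mul, map_mul, map_neg, map_ofNat, hrO.1, sub_mul, hv]
  rw [show -2 * (toC α' / toC α) * (io (etE f m b1 (2 * r)) * fr b1) =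
    -2 * (toC α' / toC α) * io (etE f m b1 (2 * r)) * fr b1 by ring]
  have h1 : toC α' / toC α = fr b / fr (pp n t * b1) := by
    rw [div_eq_div_iff hα hpb0]
    linear_combination -hfr
  rw [h1]
  field_simp

private theorem C9_e (hR : DS.S_R1) (hV : S_Voe) (hP : S_Rp2) (hX : S_Pex) (hK : S_Kco) : S_C9e := by
  intro n t _ f M m b b1 hn hm hpp hL c hc
  obtain ⟨α, α', hx, hxm, hfr, hb0, hb10, hpb0⟩ := hX n t f b b1 hm.odd hm.dvd hpp
  have hM3 := hL.three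
  have hM2 : 2 ≤ M := by omega
  have hodd : (c * NI (m * b1) : ℤ) % 2 = 1 := by
    have h1 : c % 2 = 1 := by
      have h2 := Nat.odd_iff.1 hL.odd
      omega
    have h3 : Odd (NI (m * b1)) :=
      CV_NI_odd (CV_pri_mul hm.two (CV_fb hm hpp.fb1).2.1)
    have h4 : Odd (c * NI (m * b1) : ℤ) := by
      refine Odd.mul (Int.odd_iff.2 h1) ?_
      exact_mod_cast h3
    exact Int.odd_iff.1 h4
  obtain ⟨κ, hκ, hκP⟩ := hK n t (c * NI (m * b1)) hn hodd
  refine ⟨κ, hκP, fun r hr => ?_⟩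
  obtain ⟨ha, ha'⟩ := C9_mob hM2 hr
  refine ⟨ha, ?_⟩
  have hv := (hV n t f M m b b1 α α' hm hpp.fb hpp.fb1 hL hx (hxm m)).2 hn c hc r ha
  have hd := lv_nm hL
  have e1 := hP n t f m b1 hm hpp.fb1 _ (ha'.coprime_dvd_right hd)
  have e2 := hP n t f m b hm hpp.fb _ ((C9_half hM2 hL.odd c hr).coprime_dvd_right hd)
  have e3 := hP n t f m b hm hpp.fb _ ((C9_half0 hM2 hL.odd c).coprime_dvd_right hd)
  have h00 : (0 : ℚ).den.Coprime M := by
    rw [Rat.den_zero]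
    exact Nat.coprime_one_left M
  have e4 := hP n t f m b1 hm hpp.fb1 _ (h00.coprime_dvd_right hd)
  rw [zero_div] at e4
  rw [← e1, ← e2, ← e3, ← e4, ← hκ] at hv
  have hrO := ((hR.1 n t).1 _ (CV_fb hm hpp.fb1).1).2.2.2 _ (C9_g15 n t hm hpp.fb1)
  have hα' : toC α' ≠ 0 := toC_ne hx.a0'
  have h1 : toC α / toC α' * fr b = fr (pp n t * b1) := by
    rw [div_mul_eq_mul_div, hfr, mul_div_cancel_left₀ _ hα']
  apply io_inj
  apply mul_right_cancel₀ hb10
  rw [map_add, map_mul, map_mul, map_sub, hrO.1]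
  have h2 : io κ * (fr (pp n t * b1) / fr b1) *
      (io (etE f m b ((r + c) / 2)) - io (etE f m b (c / 2))) * fr b1 =
      io κ * fr (pp n t * b1) * (io (etE f m b ((r + c) / 2)) - io (etE f m b (c / 2))) := by
    field_simp
  rw [add_mul, h2, ← h1]
  linear_combination hv

theorem tC9 (hR : DS.S_R1) (hV : S_Voe) (hP : S_Rp2) (hX : S_Pex) (hK : S_Kco) : S_C9o ∧ S_C9e :=
  ⟨C9_o hR hV hP hX, C9_e hR hV hP hX hK⟩

end Pool.Agent.DR.C
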