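import Pool.Agent.Lib.DR.C.Spec9

/-!
# DR, part C, module Kco: the constant `κ` (author helper8)
-/

set_option autoImplicit false

open scoped Pointwise Topology nonZeroDivisors
open Filter

noncomputable section

namespace Pool.Agent.DR.C

open Pool.Agent.MuZ Pool.Agent.FW NumberField Pool.Agent.DR Pool.Agent.DN
open Pool.Agent.DI (io ofC io_inj exists_io io_ofC ofC_io VP MP UP TP ex sqr sqr_sq kap)
open Pool.Agent.DN.C (rsum PerO Th)
open Pool.Agent.DS.C (ftp Ts Hs Pf h0 T0 Lg Hg s0)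

private theorem Kco_ex_zpow (q : ℕ) (j : ℤ) : (ex (1 / q) : ℂ) ^ j = ex (j / q) := by
  unfold ex
  rw [← Complex.exp_int_mul]
  congr 1
  ring

private theorem Kco_zet4 (e : ℤ) (he : e % 2 = 1) : (zet 4 ^ e) ^ 2 = (-1 : Om) := by
  apply io_inj
  rw [map_pow, map_zpow₀, CV_io_zet (by norm_num), map_neg, map_one, Kco_ex_zpow]
  obtain ⟨k, hk⟩ : ∃ k : ℤ, e = 2 * k + 1 := ⟨e / 2, by omega⟩
  subst hk
  unfold ex
  rw [← Complex.exp_nat_mul]
  have h1 : ((2 : ℕ) : ℂ) * (2 * Real.pi * Complex.I * (((2 * k + 1 : ℤ) : ℂ) / ((4 : ℕ) : ℂ))) =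
      Real.pi * Complex.I + k * (2 * Real.pi * Complex.I) := by
    push_cast
    ring
  rw [h1, Complex.exp_add, Complex.exp_int_mul, Complex.exp_two_pi_mul_I, one_zpow, mul_one,
    Complex.exp_pi_mul_I]

private theorem Kco_zet16 (e : ℤ) (he : e % 2 = 1) (n : ℕ) (hn : n % 4 = 2) :
    (zet 16 ^ (e * n)) ^ 4 = (-1 : Om) := by
  apply io_inj
  rw [map_pow, map_zpow₀, CV_io_zet (by norm_num), map_neg, map_one, Kco_ex_zpow]
  obtain ⟨k, hk⟩ : ∃ k : ℤ, e * n = 4 * k + 2 := by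
    refine ⟨(e * n) / 4, ?_⟩
    have h1 : (e * (n : ℤ)) % 4 = 2 := by
      have h2 : (n : ℤ) % 4 = 2 := by exact_mod_cast hn
      have h3 : e % 4 = 1 ∨ e % 4 = 3 := by omega
      rcases h3 with h3 | h3 <;> simp [Int.mul_emod, h2, h3]
    omega
  rw [hk]
  unfold ex
  rw [← Complex.exp_nat_mul]
  have h1 : ((4 : ℕ) : ℂ) * (2 * Real.pi * Complex.I * (((4 * k + 2 : ℤ) : ℂ) / ((16 : ℕ) : ℂ))) =
      Real.pi * Complex.I + k * (2 * Real.pi * Complex.I) := by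
    push_cast
    ring
  rw [h1, Complex.exp_add, Complex.exp_int_mul, Complex.exp_two_pi_mul_I, one_zpow, mul_one,
    Complex.exp_pi_mul_I]

theorem tKco : S_Kco := by
  intro n t _ e hn he
  have ht : t = 0 := Rmf.zero (n := n)
  have hsq : 0 < n ∧ Squarefree n := by
    rcases (SqN.out (n := n) (t := t)) with ⟨h1, -⟩ | ⟨-, h2, h3, -⟩
    · omega
    · exact ⟨h2, h3⟩
  have hn4 : n % 4 = 2 := by
    have h1 : ¬ (2 * 2) ∣ n := fun h => by
      have := hsq.2 2 h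
      rw [Nat.isUnit_iff] at this
      omega
    omega
  obtain ⟨m, hm, hmo⟩ : ∃ m : ℤ, (n : ℤ) = 2 * m ∧ m % 2 = 1 := ⟨(n : ℤ) / 2, by omega, by omega⟩
  have hz16 : (zet 16 : Om) ^ (e * (n : ℤ)) ≠ 0 := zpow_ne_zero _ (CV_zet_ne (by norm_num))
  refine ⟨(1 - zet 4 ^ e) / (2 * zet 16 ^ (e * (n : ℤ))), ?_, ?_⟩
  · rw [map_div₀, map_sub, map_mul, map_one, map_zpow₀, map_zpow₀, CV_io_zet (by norm_num),
      CV_io_zet (by norm_num), Kco_ex_zpow, Kco_ex_zpow]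
    unfold KK
    push_cast
    rw [map_ofNat]
    rw [div_div, mul_comm (2 : ℂ)]
  · intro P hP
    have : P.IsPrime := hP.1.1
    have h2 : MP P 2 := hP.2
    set x : Om := (1 - zet 4 ^ e) / (2 * zet 16 ^ (e * (n : ℤ))) * toO (pO n t) with hx
    have hw : toO (pO n t) ^ 2 = -(n : Om) := by
      have h1 : toO (pO n t) = wO n t := by
        rw [toO_apply]
        simp only [pO]
        rw [hn]
        simp
      rw [h1, wO_sq, ht]
      simp
    have hm' : (n : Om) = 2 * (m : Om) := by exact_mod_cast congrArg (Int.cast : ℤ → Om) hm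
    have hx4 : x ^ 4 = ((m ^ 2 : ℤ) : Om) := by
      have e4 := Kco_zet4 e he
      have e16 := Kco_zet16 e he n hn4
      set u : Om := zet 4 ^ e with hu
      set v : Om := zet 16 ^ (e * (n : ℤ)) with hv
      have hnum : (1 - u) ^ 4 = -4 := by
        linear_combination (u ^ 2 - 4 * u + 5) * e4
      rw [hx, mul_pow, div_pow, mul_pow, hnum, e16]
      have hw4 : toO (pO n t) ^ 4 = 4 * (m : Om) ^ 2 := by
        calc toO (pO n t) ^ 4 = (toO (pO n t) ^ 2) ^ 2 := by ring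
          _ = 4 * (m : Om) ^ 2 := by rw [hw, hm']; ring
      rw [hw4]
      push_cast
      ring
    have hx1 : MP P (x ^ 4 - 1) := by
      have h3 : x ^ 4 - 1 = ((m ^ 2 - 1 : ℤ) : Om) := by
        rw [hx4]
        push_cast
        ring
      rw [h3]
      refine CV_mp_even hP.1.1 h2 ?_
      obtain ⟨k, hk⟩ : ∃ k : ℤ, m = 2 * k + 1 := ⟨m / 2, by omega⟩
      exact ⟨2 * k ^ 2 + 2 * k, by rw [hk]; ring⟩
    have hxv : VP P x := by
      refine DI.VP.of_pow (n := 4) (by norm_num) ?_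
      have h3 : x ^ 4 = (x ^ 4 - 1) + 1 := by ring
      rw [h3]
      exact DI.VP.add hx1.vp DI.VP.one
    refine DI.MP.of_pow (n := 4) ?_
    have h3 : (x - 1) ^ 4 = (x ^ 4 - 1) + 2 * (((3 : ℕ) : Om) * x ^ 2 - ((2 : ℕ) : Om) * x ^ 3 -
        ((2 : ℕ) : Om) * x + 1) := by
      push_cast
      ring
    rw [h3]
    refine DI.MP.add hx1 (DI.MP.mul_right h2 ?_)
    exact DI.VP.add (DI.VP.sub (DI.VP.sub (DI.VP.mul (DI.VP.nat 3) (DI.VP.pow hxv 2))
      (DI.VP.mul (DI.VP.nat 2) (DI.VP.pow hxv 3))) (DI.VP.mul (DI.VP.nat 2) hxv)) DI.VP.one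

end Pool.Agent.DR.C
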