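import Pool.Agent.Lib.DR.C.Spec9

/-!
# Part C for DR, hidden symmetries, module Loe: the local identity, `n` even
-/

set_option autoImplicit false

open scoped Pointwise Topology nonZeroDivisors
open Filter

noncomputable section

namespace Pool.Agent.DR.C

open Pool.Agent.MuZ Pool.Agent.FW NumberField Pool.Agent.DR Pool.Agent.DN
open Pool.Agent.DI (io ofC io_inj exists_io io_ofC ofC_io VP MP UP TP ex sqr sqr_sq kap)
open Pool.Agent.DN.C (rsum PerO Th)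
open Pool.Agent.DS.C (ftp Ts Hs Pf h0 T0 Lg Hg s0)

variable {n t : ℕ}

private lemma Loe_add (x y : ℂ) : ex (x + y) = ex x * ex y := by
  unfold ex
  rw [mul_add, Complex.exp_add]

private lemma Loe_int (j : ℤ) : ex (j : ℂ) = 1 := by
  unfold ex
  have h : 2 * (Real.pi : ℂ) * Complex.I * (j : ℂ) = (j : ℂ) * (2 * Real.pi * Complex.I) := by ring
  rw [h]
  exact Complex.exp_int_mul_two_pi_mul_I j

private lemma Loe_congr {x y : ℂ} (j : ℤ) (h : x = y + j) : ex x = ex y := by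
  rw [h, Loe_add, Loe_int, mul_one]

private lemma Loe_ne (x : ℂ) : ex x ≠ 0 := Complex.exp_ne_zero _

private lemma Loe_half : ex (1 / 2) = -1 := by
  unfold ex
  have h : 2 * (Real.pi : ℂ) * Complex.I * (1 / 2) = Real.pi * Complex.I := by ring
  rw [h]
  exact Complex.exp_pi_mul_I

/-- `e(e/4)² = -1` for odd `e`. -/
private lemma Loe_I {e : ℤ} (he : Odd e) : ex (e / 4) * ex (e / 4) = -1 := by
  obtain ⟨k, rfl⟩ := he
  rw [← Loe_add, ← Loe_half]
  refine Loe_congr k ?_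
  push_cast
  ring

private lemma Loe_nm [h : Rmf n t] (v : OO n t) : Nm v = v.re ^ 2 + n * v.im ^ 2 := by
  have ht := h.zero
  subst ht
  unfold Nm
  push_cast
  ring

private lemma Loe_sq {f : ℕ} (hf : Odd f) : ∃ k : ℤ, (f : ℤ) ^ 2 = 8 * k + 1 := by
  obtain ⟨j, rfl⟩ := hf
  obtain ⟨k, hk⟩ := Int.even_mul_succ_self (j : ℤ)
  refine ⟨k, ?_⟩
  push_cast
  linear_combination 4 * hk

private lemma Loe_nmf [Rmf n t] {f : ℕ} {k : ℤ} (hk : (f : ℤ) ^ 2 = 8 * k + 1) (v : OO n t) :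
    Nm ((f : OO n t) * v) = Nm v + 8 * (k * Nm v) := by
  rw [Nm_mul, Nm_nat, hk]
  ring

private lemma Loe_gf [Rmf n t] {f : ℕ} (hf : Odd f) (e : ℤ) (v : OO n t) :
    gE e ((f : OO n t) * v) = gE e v := by
  obtain ⟨k, hk⟩ := Loe_sq hf
  have h := Loe_nmf hk v
  unfold gE et
  rw [h]
  have h4 : (Nm v + 8 * (k * Nm v)) % 4 = Nm v % 4 := by omega
  rw [h4]
  by_cases h2 : Nm v % 4 = 2
  · obtain ⟨j, hj⟩ : ∃ j : ℤ, Nm v = 2 * j := ⟨Nm v / 2, by omega⟩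
    congr 2
    refine Loe_congr (e * k * j) ?_
    rw [hj]
    push_cast
    ring
  · rw [if_neg h2]
    simp

private lemma Loe_g4 [Rmf n t] (h2 : S_Two) (hn : n % 2 = 0) (e : ℤ) :
    PerO 4 (gE (n := n) (t := t) e) := by
  intro v u
  have h := (h2 n t).2.2.2.2.2.2.1 hn v.re v.im
  have h0 : v = (⟨v.re, v.im⟩ : OO n t) := rfl
  have e1 : Nm (v + ((4 : ℕ) : OO n t) * u) =
      Nm v + 8 * (v.re * u.re + n * v.im * u.im) + 16 * Nm u := by
    rw [Loe_nm, Loe_nm v, Loe_nm u]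
    have ht := Rmf.zero (n := n) (t := t)
    subst ht
    rw [QuadraticAlgebra.re_add, QuadraticAlgebra.im_add, re_mul, im_mul, re_nat, im_nat]
    push_cast
    ring
  unfold gE et
  rw [e1]
  have h4 : (Nm v + 8 * (v.re * u.re + n * v.im * u.im) + 16 * Nm u) % 4 = Nm v % 4 := by omega
  rw [h4]
  by_cases h3 : Nm v % 4 = 2
  · obtain ⟨hx, -⟩ := h.1 h3
    obtain ⟨j, hj⟩ : ∃ j : ℤ, v.re = 2 * j := ⟨v.re / 2, by omega⟩
    obtain ⟨m, hm⟩ : ∃ m : ℕ, n = 2 * m := ⟨n / 2, by omega⟩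
    congr 2
    refine Loe_congr (e * (j * u.re + m * v.im * u.im) + e * Nm u) ?_
    rw [hj]
    have hm' : (n : ℂ) = 2 * m := by
      conv_lhs => rw [hm]
      push_cast
      ring
    push_cast
    rw [hm']
    ring
  · rw [if_neg h3]
    simp

private lemma Loe_r2 (G : OO n t → ℂ) :
    rsum 2 G = G ⟨0, 0⟩ + G ⟨0, 1⟩ + (G ⟨1, 0⟩ + G ⟨1, 1⟩) := by
  unfold rsum
  simp only [Finset.sum_range_succ, Finset.sum_range_zero, zero_add]
  norm_num

private lemma Loe_r4 (G : OO n t → ℂ) (h : ∀ x y : ℤ, ¬ (x % 2 = 0 ∧ y % 2 = 1) → G ⟨x, y⟩ = 0) :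
    rsum 4 G = G ⟨0, 1⟩ + G ⟨0, 3⟩ + (G ⟨2, 1⟩ + G ⟨2, 3⟩) := by
  unfold rsum
  simp only [Finset.sum_range_succ, Finset.sum_range_zero, zero_add]
  norm_num
  rw [h 0 0 (by omega), h 0 2 (by omega), h 1 0 (by omega), h 1 1 (by omega), h 1 2 (by omega),
    h 1 3 (by omega), h 2 0 (by omega), h 2 2 (by omega), h 3 0 (by omega), h 3 1 (by omega),
    h 3 2 (by omega), h 3 3 (by omega)]
  ring

private lemma Loe_im [h : Rmf n t] (x y : ℤ) (u : OO n t) :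
    ((⟨x, y⟩ : OO n t) * cjO u).im = y * u.re - x * u.im := by
  have ht := h.zero
  subst ht
  rw [im_mul]
  unfold cjO
  push_cast
  ring

private lemma Loe_od [Rmf n t] (hn : n % 2 = 0) {f : ℕ} (hf : Odd f) (x y : ℤ) :
    od ((f : OO n t) * ⟨x, y⟩) = if x % 2 = 1 then 1 else 0 := by
  obtain ⟨k, hk⟩ := Loe_sq hf
  have h := Loe_nmf hk (⟨x, y⟩ : OO n t)
  unfold od
  rw [h, Loe_nm]
  have e1 : (x ^ 2 + n * y ^ 2 + 8 * (k * (x ^ 2 + n * y ^ 2))) % 2 = x % 2 := by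
    obtain ⟨m, hm⟩ : ∃ m : ℕ, n = 2 * m := ⟨n / 2, by omega⟩
    have hm' : (n : ℤ) = 2 * m := by omega
    rw [hm']
    rcases Int.even_or_odd' x with ⟨a, ha | ha⟩
    · rw [ha]
      have : (2 * a) ^ 2 + 2 * (m : ℤ) * y ^ 2 + 8 * (k * ((2 * a) ^ 2 + 2 * (m : ℤ) * y ^ 2)) =
        2 * (2 * a ^ 2 + m * y ^ 2 + 4 * (k * ((2 * a) ^ 2 + 2 * (m : ℤ) * y ^ 2))) := by ring
      rw [this]
      omega
    · rw [ha]
      have : (2 * a + 1) ^ 2 + 2 * (m : ℤ) * y ^ 2 + 8 * (k * ((2 * a + 1) ^ 2 + 2 * (m : ℤ) * y ^ 2)) =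
        2 * (2 * a ^ 2 + 2 * a + m * y ^ 2 + 4 * (k * ((2 * a + 1) ^ 2 + 2 * (m : ℤ) * y ^ 2))) + 1 := by
        ring
      rw [this]
      omega
  change (if (x ^ 2 + n * y ^ 2 + 8 * (k * (x ^ 2 + n * y ^ 2))) % 2 = 1 then (1 : ℂ) else 0) = _
  rw [e1]

private lemma Loe_f2 [Rmf n t] (hn : n % 2 = 0) {f : ℕ} (hf : Odd f) (u : OO n t) :
    ftp 2 f od u = ex (u.im / 2) * (1 + ex (-u.re / 2)) := by
  unfold ftp
  rw [Loe_r2]
  simp only [Loe_od hn hf, Loe_im]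
  norm_num
  rw [mul_add, mul_one, ← Loe_add]
  congr 1
  congr 1
  ring

/-- The values of `gE`. -/
private lemma Loe_gv [Rmf n t] (h2 : S_Two) (hn : n % 2 = 0) (e x y : ℤ) (hx : x % 2 = 0)
    (hy : y % 2 = 1) : gE e (⟨x, y⟩ : OO n t) = (1 - ex (e / 4)) * ex (e * x ^ 2 / 16) := by
  have h3 := ((h2 n t).2.2.2.2.2.2.1 hn x y).2 ⟨hx, hy⟩
  unfold gE et KK
  rw [if_pos h3, Loe_nm]
  obtain ⟨j, hj⟩ : ∃ j : ℤ, y ^ 2 = 8 * j + 1 := by
    obtain ⟨a, rfl⟩ : ∃ a : ℤ, y = 2 * a + 1 := ⟨y / 2, by omega⟩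
    obtain ⟨k, hk⟩ := Int.even_mul_succ_self a
    exact ⟨k, by linear_combination 4 * hk⟩
  obtain ⟨m, hm⟩ : ∃ m : ℕ, n = 2 * m := ⟨n / 2, by omega⟩
  have hm' : (n : ℂ) = 2 * m := by
    conv_lhs => rw [hm]
    push_cast
    ring
  have hj' : (y : ℂ) ^ 2 = 8 * j + 1 := by exact_mod_cast hj
  have e1 : ex ((e : ℂ) * (((⟨x, y⟩ : OO n t).re ^ 2 + (n : ℤ) * (⟨x, y⟩ : OO n t).im ^ 2 : ℤ) : ℂ) / 16) =
      ex (e * n / 16) * ex (e * x ^ 2 / 16) := by
    rw [← Loe_add]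
    refine Loe_congr (e * m * j) ?_
    push_cast
    rw [hj', hm']
    ring
  rw [e1]
  have h0 := Loe_ne ((e : ℂ) * n / 16)
  field_simp

private lemma Loe_f4 [Rmf n t] (h2 : S_Two) (hn : n % 2 = 0) {f : ℕ} (hf : Odd f) (e : ℤ)
    (u : OO n t) : ftp 4 f (gE e) u = (1 - ex (e / 4)) * (ex (-u.re / 4) + ex (-(3 * u.re) / 4)) *
      (1 + ex (e / 4) * ex (u.im / 2)) := by
  unfold ftp
  rw [Loe_r4]
  · simp only [Loe_gf hf, Loe_im]
    rw [Loe_gv h2 hn e 0 1 (by norm_num) (by norm_num), Loe_gv h2 hn e 0 3 (by norm_num) (by norm_num),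
      Loe_gv h2 hn e 2 1 (by norm_num) (by norm_num), Loe_gv h2 hn e 2 3 (by norm_num) (by norm_num)]
    have a1 : ex ((e : ℂ) * ((0 : ℤ) : ℂ) ^ 2 / 16) = 1 := by
      rw [← Loe_int 0]
      congr 1
      push_cast
      ring
    have a2 : ex ((e : ℂ) * ((2 : ℤ) : ℂ) ^ 2 / 16) = ex (e / 4) := by
      congr 1
      push_cast
      ring
    rw [a1, a2]
    have b1 : ex (-((1 * u.re - 0 * u.im : ℤ) : ℂ) / ((4 : ℕ) : ℂ)) = ex (-u.re / 4) := by
      congr 1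
      push_cast
      ring
    have b2 : ex (-((3 * u.re - 0 * u.im : ℤ) : ℂ) / ((4 : ℕ) : ℂ)) = ex (-(3 * u.re) / 4) := by
      congr 1
      push_cast
      ring
    have b3 : ex (-((1 * u.re - 2 * u.im : ℤ) : ℂ) / ((4 : ℕ) : ℂ)) = ex (-u.re / 4) * ex (u.im / 2) := by
      rw [← Loe_add]
      congr 1
      push_cast
      ring
    have b4 : ex (-((3 * u.re - 2 * u.im : ℤ) : ℂ) / ((4 : ℕ) : ℂ)) =
        ex (-(3 * u.re) / 4) * ex (u.im / 2) := by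
      rw [← Loe_add]
      congr 1
      push_cast
      ring
    rw [b1, b2, b3, b4]
    ring
  · intro x y hxy
    rw [Loe_gf hf]
    have h3 : ¬ Nm (⟨x, y⟩ : OO n t) % 4 = 2 := fun h => hxy (((h2 n t).2.2.2.2.2.2.1 hn x y).1 h)
    unfold gE et
    rw [if_neg h3]
    ring

theorem tLoe (h2 : S_Two) : S_Loe := by
  intro n t _ f c e hn hf hc hec
  refine ⟨Loe_g4 h2 hn e, fun u => ?_⟩
  have hmod := (sO4 n t).1
  obtain ⟨m, hm⟩ : ∃ m : ℕ, n = 2 * m := ⟨n / 2, by omega⟩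
  have hmo : m % 2 = 1 := by omega
  have hm2 : n / 2 = m := by omega
  rw [hm2] at hec
  have hcm : Odd ((c : ℤ) * m) := by
    have h1 : Odd (c * m) := hc.mul (Nat.odd_iff.2 hmo)
    exact_mod_cast h1
  have heo : Odd e := by
    obtain ⟨k, hk⟩ := hec
    obtain ⟨j, hj⟩ := hcm
    exact ⟨2 * k - j - 1, by linear_combination hk - hj⟩
  rw [Loe_f2 hn hf, Loe_f4 h2 hn hf e u, Loe_nm]
  have hI := Loe_I heo
  have hm' : (n : ℂ) = 2 * m := by
    conv_lhs => rw [hm]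
    push_cast
    ring
  rcases Int.even_or_odd' u.re with ⟨x, hx | hx⟩
  · rw [hx]
    have a1 : ex (-((2 * x : ℤ) : ℂ) / 2) = 1 := by
      rw [← Loe_int (-x)]
      congr 1
      push_cast
      ring
    have a2 : ex (-((2 * x : ℤ) : ℂ) / 4) = ex (x / 2) := by
      refine Loe_congr (-x) ?_
      push_cast
      ring
    have a3 : ex (-(3 * ((2 * x : ℤ) : ℂ)) / 4) = ex (x / 2) := by
      refine Loe_congr (-2 * x) ?_
      push_cast
      ring
    have a4 : ex (-((c : ℂ) * (((2 * x) ^ 2 + (n : ℤ) * u.im ^ 2 : ℤ) : ℂ)) / ((8 : ℕ) : ℂ)) =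
        ex (x / 2) * ex (-(c * m * u.im ^ 2) / 4) := by
      obtain ⟨j, hj⟩ := hc
      obtain ⟨k, hk⟩ := Int.even_mul_succ_self x
      rw [← Loe_add]
      refine Loe_congr (-(j * x ^ 2) - k) ?_
      have hk' : (x : ℂ) * (x + 1) = k + k := by exact_mod_cast hk
      push_cast
      rw [hm', hj]
      push_cast
      linear_combination (-1 / 2 : ℂ) * hk'
    rw [a1, a2, a3, a4]
    rcases Int.even_or_odd' u.im with ⟨y, hy | hy⟩
    · rw [hy]
      have b1 : ex (((2 * y : ℤ) : ℂ) / 2) = 1 := by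
        rw [← Loe_int y]
        congr 1
        push_cast
        ring
      have b2 : ex (-((c : ℂ) * m * ((2 * y : ℤ) : ℂ) ^ 2) / 4) = 1 := by
        rw [← Loe_int (-(c * m * y ^ 2))]
        congr 1
        push_cast
        ring
      rw [b1, b2]
      linear_combination 2 * ex (x / 2) * hI
    · rw [hy]
      have b1 : ex (((2 * y + 1 : ℤ) : ℂ) / 2) = -1 := by
        rw [← Loe_half]
        refine Loe_congr y ?_
        push_cast
        ring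
      have b2 : ex (-((c : ℂ) * m * ((2 * y + 1 : ℤ) : ℂ) ^ 2) / 4) = ex (e / 4) := by
        obtain ⟨k, hk⟩ := hec
        have hk' : (e : ℂ) + c * m = 4 * k := by exact_mod_cast hk
        refine Loe_congr (-(c * m * (y ^ 2 + y)) - k) ?_
        push_cast
        linear_combination (-1 / 4 : ℂ) * hk'
      rw [b1, b2]
      linear_combination (-2) * ex (x / 2) * hI
  · have a1 : ex (-(u.re : ℂ) / 2) = -1 := by
      rw [← Loe_half, hx]
      refine Loe_congr (-x - 1) ?_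
      push_cast
      ring
    have a2 : ex (-(3 * (u.re : ℂ)) / 4) = -ex (-u.re / 4) := by
      have e1 : ex (-(3 * (u.re : ℂ)) / 4) = ex (-u.re / 4) * ex (-(u.re : ℂ) / 2) := by
        rw [← Loe_add]
        congr 1
        ring
      rw [e1, a1]
      ring
    rw [a1, a2]
    ring

end Pool.Agent.DR.C
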