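import Pool.Agent.Lib.DR.C.Spec9

/-!
# Part C for DR, hidden symmetries, module Loo: the local identity, `n` odd
-/

set_option autoImplicit false

open scoped Pointwise Topology nonZeroDivisors
open Filter

noncomputable section

namespace Pool.Agent.DR.C

open Pool.Agent.MuZ Pool.Agent.FW NumberField Pool.Agent.DR Pool.Agent.DN
open Pool.Agent.DI (io ofC io_inj exists_io io_ofC ofC_io VP MP UP TP ex sqr sqr_sq kap)
open Pool.Agent.DN.C (rsum PerO Th)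
open Pool.Agent.DS.C (ftp Ts Hs Pf h0 T0 Lg Hg s0)

variable {n t : ℕ}

private lemma Loo_add (x y : ℂ) : ex (x + y) = ex x * ex y := by
  unfold ex
  rw [mul_add, Complex.exp_add]

private lemma Loo_int (j : ℤ) : ex (j : ℂ) = 1 := by
  unfold ex
  have h : 2 * (Real.pi : ℂ) * Complex.I * (j : ℂ) = (j : ℂ) * (2 * Real.pi * Complex.I) := by ring
  rw [h]
  exact Complex.exp_int_mul_two_pi_mul_I j

private lemma Loo_congr {x y : ℂ} (j : ℤ) (h : x = y + j) : ex x = ex y := by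
  rw [h, Loo_add, Loo_int, mul_one]

private lemma Loo_half : ex (1 / 2) = -1 := by
  unfold ex
  have h : 2 * (Real.pi : ℂ) * Complex.I * (1 / 2) = Real.pi * Complex.I := by ring
  rw [h]
  exact Complex.exp_pi_mul_I

private lemma Loo_one {x : ℂ} (j : ℤ) (h : x = j) : ex x = 1 := by
  rw [h, Loo_int]

private lemma Loo_neg {x : ℂ} (j : ℤ) (h : x = 1 / 2 + j) : ex x = -1 := by
  rw [Loo_congr j h, Loo_half]

private lemma Loo_nm [h : Rmf n t] (v : OO n t) : Nm v = v.re ^ 2 + n * v.im ^ 2 := by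
  have ht := h.zero
  subst ht
  unfold Nm
  push_cast
  ring

private lemma Loo_sq {f : ℕ} (hf : Odd f) : ∃ k : ℤ, (f : ℤ) ^ 2 = 8 * k + 1 := by
  obtain ⟨j, rfl⟩ := hf
  obtain ⟨k, hk⟩ := Int.even_mul_succ_self (j : ℤ)
  refine ⟨k, ?_⟩
  push_cast
  linear_combination 4 * hk

private lemma Loo_nmf [Rmf n t] {f : ℕ} (hf : Odd f) (v : OO n t) :
    Nm ((f : OO n t) * v) % 2 = Nm v % 2 := by
  obtain ⟨k, hk⟩ := Loo_sq hf
  have h : Nm ((f : OO n t) * v) = Nm v + 8 * (k * Nm v) := by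
    rw [Nm_mul, Nm_nat, hk]
    ring
  rw [h]
  omega

private lemma Loo_r2 (G : OO n t → ℂ) :
    rsum 2 G = G ⟨0, 0⟩ + G ⟨0, 1⟩ + (G ⟨1, 0⟩ + G ⟨1, 1⟩) := by
  unfold rsum
  simp only [Finset.sum_range_succ, Finset.sum_range_zero, zero_add]
  norm_num

private lemma Loo_im [h : Rmf n t] (x y : ℤ) (u : OO n t) :
    ((⟨x, y⟩ : OO n t) * cjO u).im = y * u.re - x * u.im := by
  have ht := h.zero
  subst ht
  rw [im_mul]
  unfold cjO
  push_cast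
  ring

private lemma Loo_od [Rmf n t] {f : ℕ} (hf : Odd f) (x y : ℤ) :
    od ((f : OO n t) * ⟨x, y⟩) = if (x ^ 2 + n * y ^ 2) % 2 = 1 then 1 else 0 := by
  unfold od
  rw [Loo_nmf hf, Loo_nm]

private lemma Loo_ev [Rmf n t] {f : ℕ} (hf : Odd f) (x y : ℤ) :
    ev ((f : OO n t) * ⟨x, y⟩) = if (x ^ 2 + n * y ^ 2) % 2 = 0 then 1 else 0 := by
  unfold ev
  rw [Loo_nmf hf, Loo_nm]

private lemma Loo_f1 [Rmf n t] (hn : n % 2 = 1) {f : ℕ} (hf : Odd f) (u : OO n t) :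
    ftp 2 f od u = ex (-u.re / 2) + ex (u.im / 2) := by
  have h0 : ¬ ((0 : ℤ) ^ 2 + n * 0 ^ 2) % 2 = 1 := by norm_num
  have h1 : ((0 : ℤ) ^ 2 + n * 1 ^ 2) % 2 = 1 := by omega
  have h2 : ((1 : ℤ) ^ 2 + n * 0 ^ 2) % 2 = 1 := by norm_num
  have h3 : ¬ ((1 : ℤ) ^ 2 + n * 1 ^ 2) % 2 = 1 := by omega
  unfold ftp
  rw [Loo_r2, Loo_od hf, Loo_od hf, Loo_od hf, Loo_od hf, if_neg h0, if_pos h1, if_pos h2, if_neg h3,
    Loo_im, Loo_im, Loo_im, Loo_im]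
  have e1 : ex (-((1 * u.re - 0 * u.im : ℤ) : ℂ) / ((2 : ℕ) : ℂ)) = ex (-u.re / 2) := by
    congr 1
    push_cast
    ring
  have e2 : ex (-((0 * u.re - 1 * u.im : ℤ) : ℂ) / ((2 : ℕ) : ℂ)) = ex (u.im / 2) := by
    congr 1
    push_cast
    ring
  rw [e1, e2]
  ring

private lemma Loo_f2 [Rmf n t] (hn : n % 2 = 1) {f : ℕ} (hf : Odd f) (u : OO n t) :
    ftp 2 f ev u = 1 + ex (-(u.re - u.im) / 2) := by
  have h0 : ((0 : ℤ) ^ 2 + n * 0 ^ 2) % 2 = 0 := by norm_num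
  have h1 : ¬ ((0 : ℤ) ^ 2 + n * 1 ^ 2) % 2 = 0 := by omega
  have h2 : ¬ ((1 : ℤ) ^ 2 + n * 0 ^ 2) % 2 = 0 := by norm_num
  have h3 : ((1 : ℤ) ^ 2 + n * 1 ^ 2) % 2 = 0 := by omega
  unfold ftp
  rw [Loo_r2, Loo_ev hf, Loo_ev hf, Loo_ev hf, Loo_ev hf, if_pos h0, if_neg h1, if_neg h2, if_pos h3,
    Loo_im, Loo_im, Loo_im, Loo_im]
  have e1 : ex (-((0 * u.re - 0 * u.im : ℤ) : ℂ) / ((2 : ℕ) : ℂ)) = 1 := by
    refine Loo_one 0 ?_
    push_cast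
    ring
  have e2 : ex (-((1 * u.re - 1 * u.im : ℤ) : ℂ) / ((2 : ℕ) : ℂ)) = ex (-(u.re - u.im) / 2) := by
    congr 1
    push_cast
    ring
  rw [e1, e2]
  ring

theorem tLoo (h2 : S_Two) : S_Loo := by
  intro n t _ f c hn hf hc u
  have _ := h2
  have hmod := (sO4 n t).1
  have hn4 : n % 4 = 1 := by omega
  rw [Loo_f1 hn hf, Loo_f2 hn hf, Loo_nm]
  obtain ⟨q, hq⟩ : ∃ q : ℤ, (n : ℤ) = 4 * q + 1 := ⟨n / 4, by omega⟩
  have hqC : (n : ℂ) = 4 * q + 1 := by exact_mod_cast congrArg (fun z : ℤ => (z : ℂ)) hq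
  obtain ⟨j, hj⟩ := hc
  have hjC : (c : ℂ) = 2 * j + 1 := by exact_mod_cast congrArg (fun z : ℕ => (z : ℂ)) hj
  rcases Int.even_or_odd' u.re with ⟨a, ha | ha⟩ <;> rcases Int.even_or_odd' u.im with ⟨b, hb | hb⟩ <;>
    rw [ha, hb]
  · -- both even
    have e1 : ex (-((2 * a : ℤ) : ℂ) / 2) = 1 := Loo_one (-a) (by push_cast; ring)
    have e2 : ex (((2 * b : ℤ) : ℂ) / 2) = 1 := Loo_one b (by push_cast; ring)
    have e3 : ex (-((c : ℂ) * (((2 * a) ^ 2 + (n : ℤ) * (2 * b) ^ 2 : ℤ) : ℂ)) / ((4 : ℕ) : ℂ)) = 1 :=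
      Loo_one (-(c * (a ^ 2 + n * b ^ 2))) (by push_cast; ring)
    have e4 : ex (-(((2 * a : ℤ) : ℂ) - ((2 * b : ℤ) : ℂ)) / 2) = 1 := Loo_one (b - a) (by push_cast; ring)
    rw [e1, e2, e3, e4]
    ring
  · -- even, odd
    have e1 : ex (-((2 * a : ℤ) : ℂ) / 2) = 1 := Loo_one (-a) (by push_cast; ring)
    have e2 : ex (((2 * b + 1 : ℤ) : ℂ) / 2) = -1 := Loo_neg b (by push_cast; ring)
    have e4 : ex (-(((2 * a : ℤ) : ℂ) - ((2 * b + 1 : ℤ) : ℂ)) / 2) = -1 :=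
      Loo_neg (b - a) (by push_cast; ring)
    rw [e1, e2, e4]
    ring
  · -- odd, even
    have e1 : ex (-((2 * a + 1 : ℤ) : ℂ) / 2) = -1 := Loo_neg (-a - 1) (by push_cast; ring)
    have e2 : ex (((2 * b : ℤ) : ℂ) / 2) = 1 := Loo_one b (by push_cast; ring)
    have e4 : ex (-(((2 * a + 1 : ℤ) : ℂ) - ((2 * b : ℤ) : ℂ)) / 2) = -1 :=
      Loo_neg (b - a - 1) (by push_cast; ring)
    rw [e1, e2, e4]
    ring
  · -- both odd
    have e1 : ex (-((2 * a + 1 : ℤ) : ℂ) / 2) = -1 := Loo_neg (-a - 1) (by push_cast; ring)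
    have e2 : ex (((2 * b + 1 : ℤ) : ℂ) / 2) = -1 := Loo_neg b (by push_cast; ring)
    have e3 : ex (-((c : ℂ) * (((2 * a + 1) ^ 2 + (n : ℤ) * (2 * b + 1) ^ 2 : ℤ) : ℂ)) / ((4 : ℕ) : ℂ)) =
        -1 := by
      refine Loo_neg (-(c * (a ^ 2 + a + (b ^ 2 + b) * n + q)) - j - 1) ?_
      push_cast
      rw [hqC, hjC]
      ring
    have e4 : ex (-(((2 * a + 1 : ℤ) : ℂ) - ((2 * b + 1 : ℤ) : ℂ)) / 2) = 1 :=
      Loo_one (b - a) (by push_cast; ring)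
    rw [e1, e2, e3, e4]
    ring

end Pool.Agent.DR.C
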