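import Pool.Agent.Lib.DR.C.Spec9

/-!
# Part C for DR, hidden symmetries, module Pco: change of ideals
-/

set_option autoImplicit false

open scoped Pointwise Topology nonZeroDivisors
open Filter

noncomputable section

namespace Pool.Agent.DR.C

open Pool.Agent.MuZ Pool.Agent.FW NumberField Pool.Agent.DR Pool.Agent.DN
open Pool.Agent.DI (io ofC io_inj exists_io io_ofC ofC_io VP MP UP TP ex sqr sqr_sq kap)
open Pool.Agent.DN.C (rsum PerO Th)
open Pool.Agent.DS.C (ftp Ts Hs Pf h0 T0 Lg Hg s0)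

variable {n t : ℕ}

private lemma Pco_nu [SqN n t] (b : Ideal (OO n t)) : ((NI b : ℕ) : OO n t) ∈ cjI b := by
  have h : (NI b : OO n t) ∈ b * cjI b := by
    rw [((aO3 n t).2.2.1 b).2.2]
    exact Ideal.mem_span_singleton_self _
  exact Ideal.mul_le_right h

private lemma Pco_dv {f ν : ℕ} (h : ν.Coprime f) {y : OO n t}
    (hy : (f : OO n t) ∣ (ν : OO n t) * y) : (f : OO n t) ∣ y := by
  obtain ⟨a, c, hac⟩ := Nat.isCoprime_iff_coprime.2 h
  obtain ⟨w, hw⟩ := hy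
  have h1 := congrArg (fun j : ℤ => (j : OO n t)) hac
  push_cast at h1
  exact ⟨(a : OO n t) * w + (c : OO n t) * y, by linear_combination (-y) * h1 + (a : OO n t) * hw⟩

private lemma Pco_dva {f : ℕ} {α y : OO n t} (h : (f : OO n t) ∣ α - 1)
    (hy : (f : OO n t) ∣ α * y) : (f : OO n t) ∣ y := by
  have e : y = α * y - (α - 1) * y := by ring
  rw [e]
  exact dvd_sub hy (Dvd.dvd.mul_right h y)

private lemma Pco_mem [SqN n t] {f : ℕ} {b : Ideal (OO n t)} (h : (NI b).Coprime f) {x : OO n t}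
    (hx : x ∈ cjI b) : x ∈ sp (f : OO n t) * cjI b ↔ (f : OO n t) ∣ x := by
  constructor
  · intro h1
    exact Ideal.mem_span_singleton.1 (Ideal.mul_le_left h1)
  · rintro ⟨w, hw⟩
    rw [Ideal.mem_span_singleton_mul]
    refine ⟨w, ?_, hw.symm⟩
    obtain ⟨a, c, hac⟩ := Nat.isCoprime_iff_coprime.2 h
    have h1 := congrArg (fun j : ℤ => (j : OO n t)) hac
    push_cast at h1
    have e : w = (c : OO n t) * x + (a : OO n t) * w * ((NI b : ℕ) : OO n t) := by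
      rw [hw]
      linear_combination (-w) * h1
    rw [e]
    exact Ideal.add_mem _ (Ideal.mul_mem_left _ _ hx) (Ideal.mul_mem_left _ _ (Pco_nu b))

private lemma Pco_s0 [SqN n t] {f : ℕ} {b b' : Ideal (OO n t)} {s s' : ℤ} {A A' u v : OO n t}
    (hb : (NI b).Coprime f) (hb' : (NI b').Coprime f)
    (hA : ∀ y : OO n t, (f : OO n t) ∣ A * y → (f : OO n t) ∣ y)
    (hA' : ∀ y : OO n t, (f : OO n t) ∣ A' * y → (f : OO n t) ∣ y)
    (hr : (f : OO n t) ∣ A * ((s' * NI b' : ℤ) : OO n t) - A' * ((s * NI b : ℤ) : OO n t))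
    (hu : u ∈ cjI b') (hv : v ∈ cjI b) (h : A * u = A' * v) : s0 f b s v = s0 f b' s' u := by
  have h1 : ∀ (s : ℤ) (b : Ideal (OO n t)), ((s * NI b : ℤ) : OO n t) ∈ cjI b := by
    intro s b
    push_cast
    exact Ideal.mul_mem_left _ _ (Pco_nu b)
  have key : v - ((s * NI b : ℤ) : OO n t) ∈ sp (f : OO n t) * cjI b ↔
      u - ((s' * NI b' : ℤ) : OO n t) ∈ sp (f : OO n t) * cjI b' := by
    rw [Pco_mem hb (Ideal.sub_mem _ hv (h1 s b)), Pco_mem hb' (Ideal.sub_mem _ hu (h1 s' b'))]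
    have e : A * (u - ((s' * NI b' : ℤ) : OO n t)) = A' * (v - ((s * NI b : ℤ) : OO n t)) -
        (A * ((s' * NI b' : ℤ) : OO n t) - A' * ((s * NI b : ℤ) : OO n t)) := by
      linear_combination h
    constructor
    · intro h2
      apply hA
      rw [e]
      exact dvd_sub (Dvd.dvd.mul_left h2 _) hr
    · intro h2
      apply hA'
      have e2 : A' * (v - ((s * NI b : ℤ) : OO n t)) = A * (u - ((s' * NI b' : ℤ) : OO n t)) +
          (A * ((s' * NI b' : ℤ) : OO n t) - A' * ((s * NI b : ℤ) : OO n t)) := by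
        rw [e]
        ring
      rw [e2]
      exact dvd_add (Dvd.dvd.mul_left h2 _) hr
  unfold s0
  by_cases h2 : v - ((s * NI b : ℤ) : OO n t) ∈ sp (f : OO n t) * cjI b
  · rw [if_pos h2, if_pos (key.1 h2)]
  · rw [if_neg h2, if_neg fun h3 => h2 (key.2 h3)]

private lemma Pco_mem0 [SqN n t] {f : ℕ} {b : Ideal (OO n t)} {s : ℤ} {v : OO n t}
    (h : s0 f b s v ≠ 0) : v ∈ cjI b := by
  unfold s0 at h
  by_cases h2 : v - ((s * NI b : ℤ) : OO n t) ∈ sp (f : OO n t) * cjI b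
  · have h3 : v - ((s * NI b : ℤ) : OO n t) ∈ cjI b := Ideal.mul_le_right h2
    have h4 : ((s * NI b : ℤ) : OO n t) ∈ cjI b := by
      push_cast
      exact Ideal.mul_mem_left _ _ (Pco_nu b)
    have e : v = (v - ((s * NI b : ℤ) : OO n t)) + ((s * NI b : ℤ) : OO n t) := by ring
    rw [e]
    exact Ideal.add_mem _ h3 h4
  · exact absurd (if_neg h2) h

private lemma Pco_n2 : Nm (2 : OO n t) = 4 := by
  have h := Nm_nat (n := n) (t := t) 2
  push_cast at h
  exact h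

private lemma Pco_sq {ν : ℕ} (h : Odd ν) : ∃ k : ℤ, (ν : ℤ) ^ 2 = 8 * k + 1 := by
  obtain ⟨j, rfl⟩ := h
  obtain ⟨k, hk⟩ := Int.even_mul_succ_self (j : ℤ)
  exact ⟨k, by push_cast; linear_combination 4 * hk⟩

/-- `et(ν y) = od(ν' x)` if `2 ν N(x) = ν' N(y)`. -/
private lemma Pco_eo {ν ν' : ℕ} (hν : Odd ν) (hν' : Odd ν') {x y : OO n t}
    (h : 2 * (ν * Nm x) = ν' * Nm y) : et ((ν : OO n t) * y) = od ((ν' : OO n t) * x) := by
  obtain ⟨k, hk⟩ := Pco_sq hν
  obtain ⟨k', hk'⟩ := Pco_sq hν'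
  unfold et od
  rw [Nm_mul, Nm_nat, Nm_mul, Nm_nat, hk, hk']
  obtain ⟨j, hj⟩ := hν
  obtain ⟨j', hj'⟩ := hν'
  have key : (8 * k + 1) * Nm y % 4 = 2 ↔ (8 * k' + 1) * Nm x % 2 = 1 := by
    rw [hj, hj'] at h
    push_cast at h
    have e1 : Nm y = 2 * (2 * (j * Nm x) + Nm x - j' * Nm y) := by linear_combination -h
    obtain ⟨Y, hY⟩ : ∃ Y : ℤ, Nm y = 2 * Y := ⟨_, e1⟩
    rw [hY] at h ⊢
    have e2 : 2 * ((2 * j + 1) * Nm x) = 2 * ((2 * j' + 1) * Y) := by linear_combination h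
    have e3 : (2 * j + 1) * Nm x = (2 * j' + 1) * Y := by omega
    have e4 : 2 * (j * Nm x) + Nm x = 2 * (j' * Y) + Y := by linear_combination e3
    have e5 : (8 * k + 1) * (2 * Y) = 4 * (4 * (k * Y)) + 2 * Y := by ring
    have e6 : (8 * k' + 1) * Nm x = 2 * (4 * (k' * Nm x)) + Nm x := by ring
    rw [e5, e6]
    omega
  by_cases h2 : (8 * k + 1) * Nm y % 4 = 2
  · rw [if_pos h2, if_pos (key.1 h2)]
  · rw [if_neg h2, if_neg fun h3 => h2 (key.2 h3)]

/-- `v ∈ B`, `et(ν v) ≠ 0` implies `v ∈ pp B`. -/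
private lemma Pco_pp [Rmf n t] {b : Ideal (OO n t)} (hν : Odd (NI b)) {v : OO n t}
    (hv : v ∈ cjI b) (h : et ((NI b : OO n t) * v) ≠ 0) : v ∈ pp n t * cjI b := by
  obtain ⟨k, hk⟩ := Pco_sq hν
  have h1 : (2 : ℤ) ∣ Nm v := by
    unfold et at h
    rw [Nm_mul, Nm_nat, hk] at h
    by_cases h2 : (8 * k + 1) * Nm v % 4 = 2
    · have e : (8 * k + 1) * Nm v = 2 * (4 * (k * Nm v)) + Nm v := by ring
      rw [e] at h2
      omega
    · exact absurd (if_neg h2) h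
  have h3 : v ∈ pp n t := (mem_pp_Nm v).2 h1
  obtain ⟨j, hj⟩ := hν
  have e : v = (v * ((NI b : ℕ) : OO n t)) - (2 * v) * (j : OO n t) := by
    have h4 : ((NI b : ℕ) : OO n t) = 2 * (j : OO n t) + 1 := by
      rw [hj]
      push_cast
      ring
    rw [h4]
    ring
  rw [e]
  refine Ideal.sub_mem _ (Ideal.mul_mem_mul h3 (Pco_nu b)) (Ideal.mul_mem_right _ _ ?_)
  exact Ideal.mul_mem_mul (Ideal.subset_span (by simp)) hv

private lemma Pco_cp [SqN n t] {f : ℕ} (hf : 0 < f) {b : Ideal (OO n t)} (h : FB f b) :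
    (NI b).Coprime f ∧ Odd (NI b) ∧ 0 < NI b := by
  have h1 := ((aO6 n t).2.2.1 (2 * f) b (by omega)).1 h.cop
  refine ⟨Nat.Coprime.coprime_dvd_right (dvd_mul_left f 2) h1, ?_, CV_NI_ne h.ne⟩
  exact Nat.coprime_two_right.1 (Nat.Coprime.coprime_dvd_right (dvd_mul_right 2 f) h1)

private lemma Pco_id [Rmf n t] {f : ℕ} {b b1 : Ideal (OO n t)} {α α' : OO n t}
    (hP : Ppx f b b1 α α') : sp (α * ((NI b : ℕ) : OO n t)) * cjI b1 =
      sp (α' * ((NI b1 : ℕ) : OO n t)) * (pp n t * cjI b) := by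
  have e1 : sp ((NI b : ℕ) : OO n t) = b * cjI b := ((aO3 n t).2.2.1 b).2.2.symm
  have e2 : sp ((NI b1 : ℕ) : OO n t) = b1 * cjI b1 := ((aO3 n t).2.2.1 b1).2.2.symm
  rw [← CV_sp_mul, ← CV_sp_mul, e1, e2]
  calc sp α * (b * cjI b) * cjI b1 = (sp α * b) * (cjI b * cjI b1) := by ring
    _ = (sp α' * (pp n t * b1)) * (cjI b * cjI b1) := by rw [hP.eq]
    _ = _ := by ring

private lemma Pco_nm [Rmf n t] {f : ℕ} {b b1 : Ideal (OO n t)} {α α' : OO n t}
    (hP : Ppx f b b1 α α') : Nm α * NI b = 2 * (Nm α' * NI b1) := by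
  have h := congrArg (fun I : Ideal (OO n t) => (NI I : ℤ)) hP.eq
  change ((NI (sp α * b) : ℕ) : ℤ) = ((NI (sp α' * (pp n t * b1)) : ℕ) : ℤ) at h
  rw [CV_NI_mul, CV_NI_mul, CV_NI_mul, pp_NI] at h
  push_cast at h
  rw [CV_NI_sp, CV_NI_sp] at h
  linear_combination h

theorem tPco (hR : S_Rix) (_h2 : S_Two) : S_Pco := by
  intro n t _ f b b1 α α' hf hb hb1 hP z
  have hf0 : 0 < f := hf.pos
  obtain ⟨c1, o1, p1⟩ := Pco_cp hf0 hb
  obtain ⟨c2, o2, p2⟩ := Pco_cp hf0 hb1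
  have hid := Pco_id hP
  have hnm := Pco_nm hP
  have hν0 : ((NI b : ℕ) : OO n t) ≠ 0 := by
    have := CV_int_ne (n := n) (t := t) (j := (NI b : ℤ)) (by exact_mod_cast p1.ne')
    exact_mod_cast this
  have hν10 : ((NI b1 : ℕ) : OO n t) ≠ 0 := by
    have := CV_int_ne (n := n) (t := t) (j := (NI b1 : ℤ)) (by exact_mod_cast p2.ne')
    exact_mod_cast this
  have h20 : (2 : OO n t) ≠ 0 := by
    have := CV_int_ne (n := n) (t := t) (j := 2) (by norm_num)
    exact_mod_cast this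
  have hA0 : α * ((NI b : ℕ) : OO n t) ≠ 0 := mul_ne_zero hP.a0 hν0
  have hA0' : α' * ((NI b1 : ℕ) : OO n t) ≠ 0 := mul_ne_zero hP.a0' hν10
  have hA : ∀ y : OO n t, (f : OO n t) ∣ α * ((NI b : ℕ) : OO n t) * y → (f : OO n t) ∣ y := by
    intro y hy
    rw [mul_assoc] at hy
    exact Pco_dv c1 (Pco_dva hP.a1 hy)
  have hA' : ∀ y : OO n t, (f : OO n t) ∣ α' * ((NI b1 : ℕ) : OO n t) * y → (f : OO n t) ∣ y := by
    intro y hy
    rw [mul_assoc] at hy
    exact Pco_dv c2 (Pco_dva hP.a1' hy)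
  have hd : (f : OO n t) ∣ α - α' := by
    have := dvd_sub hP.a1 hP.a1'
    rwa [sub_sub_sub_cancel_right] at this
  have nz1 : (Nm α : ℤ) ≠ 0 := (Nm_pos hP.a0).ne'
  have nz2 : (Nm α' : ℤ) ≠ 0 := (Nm_pos hP.a0').ne'
  have q1 : (NI b : ℂ) ≠ 0 := by exact_mod_cast p1.ne'
  have q2 : (NI b1 : ℂ) ≠ 0 := by exact_mod_cast p2.ne'
  have q3 : ((Nm α : ℤ) : ℂ) ≠ 0 := by exact_mod_cast nz1
  have q4 : ((Nm α' : ℤ) : ℂ) ≠ 0 := by exact_mod_cast nz2
  have q5 : toC α ≠ 0 := toC_ne hP.a0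
  have hnmC : ((Nm α : ℤ) : ℂ) * NI b = 2 * (((Nm α' : ℤ) : ℂ) * NI b1) := by exact_mod_cast hnm
  constructor
  · have key := hR n t (α * ((NI b : ℕ) : OO n t)) (α' * ((NI b1 : ℕ) : OO n t)) (cjI b1)
      (pp n t * cjI b) (fun v => s0 f b 1 v * et ((NI b : OO n t) * v))
      (fun u => s0 f b1 1 u * od ((NI b1 : OO n t) * u)) (z / ((4 : ℕ) : ℂ) / NI b) hA0 hA0' hid ?_ ?_ ?_
    · unfold Lg
      rw [key, toC_mul, toC_mul, toC_nat, toC_nat, Nm_mul, Nm_mul, Nm_nat, Nm_nat]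
      have e1 : ((Nm α * (NI b : ℤ) ^ 2 : ℤ) : ℂ) / ((Nm α' * (NI b1 : ℤ) ^ 2 : ℤ) : ℂ) *
          (z / ((4 : ℕ) : ℂ) / NI b) = 2 * z / ((4 : ℕ) : ℂ) / NI b1 := by
        push_cast
        field_simp
        linear_combination z * hnmC
      rw [e1]
      field_simp
    · intro v hv
      by_contra h
      have h1 : s0 f b 1 v ≠ 0 := left_ne_zero_of_mul h
      have h3 : et ((NI b : OO n t) * v) ≠ 0 := right_ne_zero_of_mul h
      exact hv (Pco_pp o1 (Pco_mem0 h1) h3)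
    · intro u hu
      by_contra h
      exact hu (Pco_mem0 (left_ne_zero_of_mul h))
    · intro u hu v hv h
      have hv' : v ∈ cjI b := Ideal.mul_le_right hv
      have e1 : s0 f b 1 v = s0 f b1 1 u := by
        refine Pco_s0 c1 c2 hA hA' ?_ hu hv' h
        have e : α * ((NI b : ℕ) : OO n t) * ((1 * NI b1 : ℤ) : OO n t) -
            α' * ((NI b1 : ℕ) : OO n t) * ((1 * NI b : ℤ) : OO n t) =
            (α - α') * (((NI b : ℕ) : OO n t) * ((NI b1 : ℕ) : OO n t)) := by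
          push_cast
          ring
        rw [e]
        exact Dvd.dvd.mul_right hd _
      have e2 : et ((NI b : OO n t) * v) = od ((NI b1 : OO n t) * u) := by
        apply Pco_eo o1 o2
        have h5 := congrArg Nm h
        rw [Nm_mul, Nm_mul, Nm_mul, Nm_mul, Nm_nat, Nm_nat] at h5
        have h6 : (Nm α' * NI b1) * (2 * (NI b * Nm u)) = (Nm α' * NI b1) * (NI b1 * Nm v) := by
          linear_combination h5 - (NI b * Nm u) * hnm
        exact mul_left_cancel₀ (mul_ne_zero nz2 (by exact_mod_cast p2.ne')) h6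
      change s0 f b 1 v * et ((NI b : OO n t) * v) = s0 f b1 1 u * od ((NI b1 : OO n t) * u)
      rw [e1, e2]
  · have hid2 : sp (α * ((NI b : ℕ) : OO n t)) * (pp n t * cjI b1) =
        sp (2 * (α' * ((NI b1 : ℕ) : OO n t))) * cjI b := by
      rw [← CV_sp_mul 2, ← pp_sq]
      calc sp (α * ((NI b : ℕ) : OO n t)) * (pp n t * cjI b1) =
          pp n t * (sp (α * ((NI b : ℕ) : OO n t)) * cjI b1) := by ring
        _ = pp n t * (sp (α' * ((NI b1 : ℕ) : OO n t)) * (pp n t * cjI b)) := by rw [hid]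
        _ = _ := by ring
    have hA2' : ∀ y : OO n t, (f : OO n t) ∣ 2 * (α' * ((NI b1 : ℕ) : OO n t)) * y →
        (f : OO n t) ∣ y := by
      intro y hy
      apply hA' y
      have h5 : (2 : OO n t) = ((2 : ℕ) : OO n t) := by norm_num
      rw [mul_assoc, h5] at hy
      exact Pco_dv (Nat.coprime_two_left.2 hf) hy
    have key := hR n t (α * ((NI b : ℕ) : OO n t)) (2 * (α' * ((NI b1 : ℕ) : OO n t)))
      (pp n t * cjI b1) (cjI b) (fun v => s0 f b 1 v * od ((NI b : OO n t) * v))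
      (fun u => s0 f b1 2 u * et ((NI b1 : OO n t) * u)) (z / ((8 : ℕ) : ℂ) / NI b) hA0
      (mul_ne_zero h20 hA0') hid2 ?_ ?_ ?_
    · unfold Lg
      have n2 : Nm (2 : OO n t) = 4 := Pco_n2
      rw [key, toC_mul, toC_mul, toC_mul, toC_nat, toC_nat, toC_two, Nm_mul, Nm_mul, Nm_mul, Nm_nat,
        Nm_nat, n2]
      have e1 : ((Nm α * (NI b : ℤ) ^ 2 : ℤ) : ℂ) / ((4 * (Nm α' * (NI b1 : ℤ) ^ 2) : ℤ) : ℂ) *
          (z / ((8 : ℕ) : ℂ) / NI b) = z / ((16 : ℕ) : ℂ) / NI b1 := by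
        push_cast
        field_simp
        linear_combination 16 * z * hnmC
      rw [e1]
      field_simp
    · intro v hv
      by_contra h
      exact hv (Pco_mem0 (left_ne_zero_of_mul h))
    · intro u hu
      by_contra h
      have h1 : s0 f b1 2 u ≠ 0 := left_ne_zero_of_mul h
      have h3 : et ((NI b1 : OO n t) * u) ≠ 0 := right_ne_zero_of_mul h
      exact hu (Pco_pp o2 (Pco_mem0 h1) h3)
    · intro u hu v hv h
      have hu' : u ∈ cjI b1 := Ideal.mul_le_right hu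
      have e1 : s0 f b 1 v = s0 f b1 2 u := by
        refine Pco_s0 c1 c2 hA hA2' ?_ hu' hv h
        have e : α * ((NI b : ℕ) : OO n t) * ((2 * NI b1 : ℤ) : OO n t) -
            2 * (α' * ((NI b1 : ℕ) : OO n t)) * ((1 * NI b : ℤ) : OO n t) =
            (α - α') * (2 * (((NI b : ℕ) : OO n t) * ((NI b1 : ℕ) : OO n t))) := by
          push_cast
          ring
        rw [e]
        exact Dvd.dvd.mul_right hd _
      have e2 : et ((NI b1 : OO n t) * u) = od ((NI b : OO n t) * v) := by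
        apply Pco_eo o2 o1
        have h5 := congrArg Nm h
        have n2 : Nm (2 : OO n t) = 4 := Pco_n2
        rw [Nm_mul, Nm_mul, Nm_mul, Nm_mul, Nm_mul, Nm_nat, Nm_nat, n2] at h5
        have h6 : (2 * (Nm α' * NI b1)) * (2 * (NI b1 * Nm v)) = (2 * (Nm α' * NI b1)) * (NI b * Nm u) := by
          linear_combination -h5 + (NI b * Nm u) * hnm
        exact mul_left_cancel₀ (mul_ne_zero two_ne_zero (mul_ne_zero nz2 (by exact_mod_cast p2.ne'))) h6
      change s0 f b 1 v * od ((NI b : OO n t) * v) = s0 f b1 2 u * et ((NI b1 : OO n t) * u)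
      rw [e1, e2]

end Pool.Agent.DR.C
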