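import Pool.Agent.Lib.DR.C.Spec9

/-!
# Part C for DR, module Pex: the relation `α b = α' pp b1`
-/

set_option autoImplicit false

open scoped Pointwise Topology nonZeroDivisors
open Filter

noncomputable section

namespace Pool.Agent.DR.C

open Pool.Agent.MuZ Pool.Agent.FW NumberField Pool.Agent.DR Pool.Agent.DN
open Pool.Agent.DI (io ofC io_inj exists_io io_ofC ofC_io VP MP UP TP ex sqr sqr_sq kap)
open Pool.Agent.DN.C (rsum PerO Th)
open Pool.Agent.DS.C (ftp Ts Hs Pf h0 T0 Lg Hg s0)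

/-- the framing of `α b`, `α = 1` modulo `f`, `15 ∣ f` -/
private theorem Pex_fr {n t : ℕ} [SqN n t] {f : ℕ} (hf : 15 ∣ f) {b : Ideal (OO n t)} (hb : b ≠ ⊥)
    (h15 : PrI b 15) {α : OO n t} (h0 : α ≠ 0) (h1 : (f : OO n t) ∣ α - 1) :
    fr (sp α * b) = toC α * fr b := by
  have h3 : ((3 : ℕ) : OO n t) ∣ α - 1 := CV_cast_dvd (dvd_trans (by norm_num) hf) h1
  have h5 : ((5 : ℕ) : OO n t) ∣ α - 1 := CV_cast_dvd (dvd_trans (by norm_num) hf) h1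
  rw [Nat.cast_ofNat] at h3 h5
  exact (((aB7 n t b hb).2.2 h15).1 α h0 h3 (Or.inl h5)).1

theorem tPex : S_Pex := by
  intro n t _ f b b1 hfo hf hp
  have hf15 : 15 ≤ f := Nat.le_of_dvd hfo.pos hf
  obtain ⟨α0, α0', h0, h0', hc, hc', hd, heq⟩ := hp.ray
  obtain ⟨β, hβc, hβ⟩ := cop_inv hc
  have hβ0 : β ≠ 0 := CV_ne_of_cop (by omega : 2 ≤ f) hβc
  have hpp : Ppx f b b1 (β * α0) (β * α0') := by
    refine ⟨mul_ne_zero hβ0 h0, mul_ne_zero hβ0 h0', ?_, ?_, ?_⟩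
    · rw [mul_comm]
      exact hβ
    · have e : β * α0' - 1 = (α0 * β - 1) - β * (α0 - α0') := by ring
      rw [e]
      exact dvd_sub hβ (hd.mul_left β)
    · rw [← CV_sp_mul, ← CV_sp_mul, mul_assoc, heq, mul_assoc]
  obtain ⟨-, -, hN, -⟩ := sO4 n t
  have hpne : pp n t ≠ ⊥ := by
    intro h
    have h1 := ((aO2 n t).2.2.2.2.2.1 (pp n t)).2 h
    omega
  have h15f : 15 ∣ 2 * f := dvd_mul_of_dvd_right hf 2
  have hb15 : PrI b 15 := CV_pri_dvd hp.fb.cop h15f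
  have hb115 : PrI b1 15 := CV_pri_dvd hp.fb1.cop h15f
  have hp15 : PrI (pp n t) 15 := by
    refine (CV_NI_cop (by norm_num)).2 ?_
    rw [hN]
    norm_num
  have hpb15 : PrI (pp n t * b1) 15 := CV_pri_mul hp15 hb115
  have hpb : pp n t * b1 ≠ ⊥ := by
    intro h
    rcases Ideal.mul_eq_bot.1 h with h | h
    · exact hpne h
    · exact hp.fb1.ne h
  refine ⟨β * α0, β * α0', hpp, fun m => ⟨hpp.a0, hpp.a0', hpp.a1, hpp.a1', ?_⟩, ?_,
    ((aB1 n t b hp.fb.ne).2.2.2.2.2 hb15).1, ((aB1 n t b1 hp.fb1.ne).2.2.2.2.2 hb115).1,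
    ((aB1 n t _ hpb).2.2.2.2.2 hpb15).1⟩
  · rw [mul_left_comm (sp (β * α0)) m b, hpp.eq, mul_left_comm m, mul_left_comm m]
  · rw [← Pex_fr hf hp.fb.ne hb15 hpp.a0 hpp.a1, ← Pex_fr hf hpb hpb15 hpp.a0' hpp.a1', hpp.eq]

end Pool.Agent.DR.C
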