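import Pool.Agent.Lib.DR.C.Spec9
import Pool.Agent.Lib.DN.Ded

/-!
# Part C for DR, module Rix: reindexing of theta series (author helper33)
-/

set_option autoImplicit false

open scoped Pointwise Topology nonZeroDivisors
open Filter

noncomputable section

namespace Pool.Agent.DR.C

open Pool.Agent.MuZ Pool.Agent.FW NumberField Pool.Agent.DR Pool.Agent.DN
open Pool.Agent.DI (io ofC io_inj exists_io io_ofC ofC_io VP MP UP TP ex sqr sqr_sq kap)
open Pool.Agent.DN.C (rsum PerO Th)
open Pool.Agent.DS.C (ftp Ts Hs Pf h0 T0 Lg Hg s0)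

variable {n t : ℕ}

private theorem Rix_ex [SqN n t] {A A' : OO n t} {I I' : Ideal (OO n t)}
    (h : sp A * I = sp A' * I') (u : I) : ∃ v : I', A' * (v : OO n t) = A * (u : OO n t) := by
  have h1 : A * (u : OO n t) ∈ sp A' * I' := by
    rw [← h]
    exact Ideal.mul_mem_mul (Ideal.mem_span_singleton_self A) u.2
  obtain ⟨v, hv, e⟩ := Ideal.mem_span_singleton_mul.1 h1
  exact ⟨⟨v, hv⟩, e⟩

theorem tRix : S_Rix := by
  intro n t _ A A' I I' g g' w hA hA' hI hg hg' hgg
  choose φ hφ using fun u : I => Rix_ex hI u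
  have hinj : Function.Injective φ := by
    intro u u' h
    have h1 := hφ u
    have h2 := hφ u'
    rw [h] at h1
    have h3 : A * (u : OO n t) = A * (u' : OO n t) := by rw [← h1, ← h2]
    exact Subtype.ext (mul_left_cancel₀ hA h3)
  have hsur : Function.Surjective φ := by
    intro v
    obtain ⟨u, hu⟩ := Rix_ex hI.symm v
    refine ⟨u, ?_⟩
    have h1 := hφ u
    rw [hu] at h1
    exact Subtype.ext (mul_left_cancel₀ hA' h1)
  have hcA : toC A ≠ 0 := toC_ne hA
  have hcA' : toC A' ≠ 0 := toC_ne hA'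
  have hNA : (Nm A' : ℂ) ≠ 0 := by
    have := Nm_pos hA'
    exact_mod_cast this.ne'
  have s1 : ∑' v : OO n t, g v / toC v * ex (Nm v * w) =
      ∑' v : I', g (v : OO n t) / toC (v : OO n t) * ex (Nm (v : OO n t) * w) := by
    symm
    refine tsum_subtype_eq_of_support_subset (s := (I' : Set (OO n t)))
      (f := fun v : OO n t => g v / toC v * ex (Nm v * w)) ?_
    intro v hv
    by_contra h
    exact hv (by simp [hg v h])
  have s2 : ∑' u : OO n t, g' u / toC u * ex (Nm u * (Nm A / Nm A' * w)) =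
      ∑' u : I, g' (u : OO n t) / toC (u : OO n t) *
        ex (Nm (u : OO n t) * (Nm A / Nm A' * w)) := by
    symm
    refine tsum_subtype_eq_of_support_subset (s := (I : Set (OO n t)))
      (f := fun u : OO n t => g' u / toC u * ex (Nm u * (Nm A / Nm A' * w))) ?_
    intro v hv
    by_contra h
    exact hv (by simp [hg' v h])
  have s3 : ∑' v : I', g (v : OO n t) / toC (v : OO n t) * ex (Nm (v : OO n t) * w) =
      ∑' u : I, g (φ u : OO n t) / toC (φ u : OO n t) * ex (Nm (φ u : OO n t) * w) :=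
    ((Equiv.ofBijective φ ⟨hinj, hsur⟩).tsum_eq (fun v : I' =>
      g (v : OO n t) / toC (v : OO n t) * ex (Nm (v : OO n t) * w))).symm
  unfold Th
  rw [s1, s2, s3, ← mul_assoc, mul_comm (toC A' / toC A) (1 / 2 : ℂ), mul_assoc]
  refine congrArg (fun x : ℂ => 1 / 2 * x) ?_
  rw [← tsum_mul_left]
  refine tsum_congr fun u : I => ?_
  have e1 : A' * (φ u : OO n t) = A * (u : OO n t) := hφ u
  have e2 : toC A' * toC (φ u : OO n t) = toC A * toC (u : OO n t) := by
    rw [← toC_mul, ← toC_mul, e1]
  have e3 : (Nm A' : ℂ) * Nm (φ u : OO n t) = Nm A * Nm (u : OO n t) := by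
    have h1 : Nm A' * Nm (φ u : OO n t) = Nm A * Nm (u : OO n t) := by
      rw [← Nm_mul, ← Nm_mul, e1]
    exact_mod_cast h1
  have e4 : (Nm (φ u : OO n t) : ℂ) * w = Nm (u : OO n t) * (Nm A / Nm A' * w) := by
    field_simp
    linear_combination w * e3
  have e5 : g (φ u : OO n t) = g' (u : OO n t) := hgg _ u.2 _ (φ u).2 e1.symm
  have e6 : g (φ u : OO n t) / toC (φ u : OO n t) =
      toC A' / toC A * (g' (u : OO n t) / toC (u : OO n t)) := by
    rw [e5]
    by_cases hu : toC (u : OO n t) = 0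
    · have h0 : toC (φ u : OO n t) = 0 := by
        rw [hu, mul_zero] at e2
        exact (mul_eq_zero.1 e2).resolve_left hcA'
      rw [hu, h0, div_zero, mul_zero]
    · have h0 : toC (φ u : OO n t) ≠ 0 := by
        intro h
        rw [h, mul_zero] at e2
        exact hu ((mul_eq_zero.1 e2.symm).resolve_left hcA)
      field_simp
      linear_combination (-g' (u : OO n t)) * e2
  rw [e6, e4, mul_assoc]

end Pool.Agent.DR.C
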