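import Pool.Agent.Lib.DR.C.Spec9

/-!
# Part C for DR: `E_b` as a combination of the limits `h0` (helper95)
-/

set_option autoImplicit false

open scoped Pointwise Topology nonZeroDivisors
open Filter

noncomputable section

namespace Pool.Agent.DR.C

open Pool.Agent.MuZ Pool.Agent.FW NumberField Pool.Agent.DR Pool.Agent.DN
open Pool.Agent.DI (io ofC io_inj exists_io io_ofC ofC_io VP MP UP TP ex sqr sqr_sq kap)
open Pool.Agent.DN.C (rsum PerO Th)
open Pool.Agent.DS.C (ftp Ts Hs Pf h0 T0 Lg Hg s0)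

theorem tRp2 (hR : DS.S_R1) (hL : DS.C.S_Lh) (h2 : S_Two) : S_Rp2 := by
  intro n t _ f m b hm hb r hr
  obtain ⟨-, -, -, -, -, -, -, h3⟩ := h2 n t
  obtain ⟨h4, -⟩ := h3 f hm.odd
  obtain ⟨hf0, -, -, -, hodd, -, -⟩ := CV_fm hm
  have h15 : PrI b 15 := (CV_fb hm hb).1.cop
  have hfr : fr b ≠ 0 := (DS.C.aCnd n t (2 * f) m b (fm_g hm) (fb_g hb)).2.2.2.2.2.2.2.2.2.2.2.2.2.2.1
  unfold etE VR
  rw [map_sum, Finset.sum_mul]
  refine Finset.sum_congr rfl fun α hα => ?_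
  obtain ⟨ha1, ha2, -⟩ := h4 α hα
  have hac : Cop α (2 * f) := CV_cop_mul.2 ⟨ha2, CV_cop_of_dvd ha1⟩
  have ha0 : α ≠ 0 := CV_ne_of_cop (by omega) hac
  have hF : FB f (sp α * b) := CV_fb_mul (CV_fb_sp hf0 hac) hb
  have hd3 : (3 : OO n t) ∣ α - 1 := by
    have := CV_cast_dvd (dvd_trans (by norm_num : 3 ∣ 15) hm.dvd) ha1
    exact_mod_cast this
  have hd5 : (5 : OO n t) ∣ α - 1 := by
    have := CV_cast_dvd (dvd_trans (by norm_num : 5 ∣ 15) hm.dvd) ha1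
    exact_mod_cast this
  have e1 : fr (sp α * b) = toC α * fr b :=
    (((aB7 n t b hb.ne).2.2 h15).1 α ha0 hd3 (Or.inl hd5)).1
  have hq : (4 * r.den).Coprime (NI m) := by
    refine Nat.Coprime.mul_left ?_ hr
    have : Nat.Coprime 2 (NI m) := Nat.coprime_two_left.2 hodd
    have h : Nat.Coprime (2 ^ 2) (NI m) := Nat.Coprime.pow_left 2 this
    exact h
  have e2 : (r / 4 : ℚ) = ((r.num : ℤ) : ℚ) / ((4 * r.den : ℕ) : ℚ) := by
    conv_lhs => rw [← Rat.num_div_den r]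
    push_cast
    rw [div_div, mul_comm]
  have e3 : io (etaM (2 * f) m (sp α * b) (r / 4)) = hM (2 * f) m (sp α * b) (r / 4) := by
    rw [e2]
    exact (DS.aC4 hR n t (2 * f) m (sp α * b) (fm_g hm) (fb_g hF) r.num (4 * r.den) (by
      have := r.den_pos
      omega) hq).2.1
  have e4 := (hL n t (2 * f) m (sp α * b) (fm_g hm) (fb_g hF)).2.2.2.2 (r / 4)
  rw [e3, e4, e1]
  have hc : toC α ≠ 0 := toC_ne ha0
  field_simp

end Pool.Agent.DR.C
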