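import Pool.Agent.Lib.DR.C.Spec9

/-!
# Part C for DR, hidden symmetries, module Sft: translations of the theta series
-/

set_option autoImplicit false

open scoped Pointwise Topology nonZeroDivisors
open Filter

noncomputable section

namespace Pool.Agent.DR.C

open Pool.Agent.MuZ Pool.Agent.FW NumberField Pool.Agent.DR Pool.Agent.DN
open Pool.Agent.DI (io ofC io_inj exists_io io_ofC ofC_io VP MP UP TP ex sqr sqr_sq kap)
open Pool.Agent.DN.C (rsum PerO Th)
open Pool.Agent.DS.C (ftp Ts Hs Pf h0 T0 Lg Hg s0)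

variable {n t : ℕ}

private lemma Sft_add (x y : ℂ) : ex (x + y) = ex x * ex y := by
  unfold ex
  rw [mul_add, Complex.exp_add]

private lemma Sft_int (j : ℤ) : ex (j : ℂ) = 1 := by
  unfold ex
  have h : 2 * (Real.pi : ℂ) * Complex.I * (j : ℂ) = (j : ℂ) * (2 * Real.pi * Complex.I) := by ring
  rw [h]
  exact Complex.exp_int_mul_two_pi_mul_I j

private lemma Sft_congr {x y : ℂ} (j : ℤ) (h : x = y + j) : ex x = ex y := by
  rw [h, Sft_add, Sft_int, mul_one]

private lemma Sft_half : ex (1 / 2) = -1 := by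
  unfold ex
  have h : 2 * (Real.pi : ℂ) * Complex.I * (1 / 2) = Real.pi * Complex.I := by ring
  rw [h]
  exact Complex.exp_pi_mul_I

private lemma Sft_nu [SqN n t] (b : Ideal (OO n t)) : ((NI b : ℕ) : OO n t) ∈ cjI b := by
  have h : (NI b : OO n t) ∈ b * cjI b := by
    rw [((aO3 n t).2.2.1 b).2.2]
    exact Ideal.mem_span_singleton_self _
  exact Ideal.mul_le_right h

private lemma Sft_per [SqN n t] (f : ℕ) (b : Ideal (OO n t)) (s : ℤ) :
    PerO (f * NI b) (s0 f b s) := by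
  intro v u
  have e : v + ((f * NI b : ℕ) : OO n t) * u - ((s * NI b : ℤ) : OO n t) =
      (v - ((s * NI b : ℤ) : OO n t)) + ((f * NI b : ℕ) : OO n t) * u := by ring
  have h : ((f * NI b : ℕ) : OO n t) * u ∈ sp (f : OO n t) * cjI b := by
    apply Ideal.mul_mem_right
    rw [Nat.cast_mul]
    exact Ideal.mul_mem_mul (Ideal.mem_span_singleton_self _) (Sft_nu b)
  unfold s0
  rw [e, Ideal.add_mem_iff_left _ h]

private lemma Sft_per2 [SqN n t] (f : ℕ) (b : Ideal (OO n t)) (s : ℤ) {g : OO n t → ℂ}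
    (hg : PerO 2 g) : PerO (2 * (f * NI b)) (fun v => s0 f b s v * g ((NI b : OO n t) * v)) := by
  intro v u
  have e1 : v + ((2 * (f * NI b) : ℕ) : OO n t) * u =
      v + ((f * NI b : ℕ) : OO n t) * (2 * u) := by
    push_cast
    ring
  have e2 : (NI b : OO n t) * (v + ((2 * (f * NI b) : ℕ) : OO n t) * u) =
      (NI b : OO n t) * v + ((2 : ℕ) : OO n t) * (((f * NI b : ℕ) : OO n t) * ((NI b : OO n t) * u)) := by
    push_cast
    ring
  change s0 f b s (v + ((2 * (f * NI b) : ℕ) : OO n t) * u) *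
    g ((NI b : OO n t) * (v + ((2 * (f * NI b) : ℕ) : OO n t) * u)) = s0 f b s v * g ((NI b : OO n t) * v)
  rw [e2, hg, e1, Sft_per f b s]

private lemma Sft_sum [SqN n t] {f : ℕ} (hf : 0 < f) {b : Ideal (OO n t)} (hb : 0 < NI b) (s : ℤ)
    {g : OO n t → ℂ} (hg : PerO 2 g) {w : ℂ} (hw : 0 < w.im) :
    Summable fun v : OO n t => s0 f b s v * g ((NI b : OO n t) * v) / toC v * ex (Nm v * w) :=
  (Pool.Agent.DN.C.aDer n t (2 * (f * NI b)) _ (by positivity) (Sft_per2 f b s hg)).2.1 w hw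

private lemma Sft_j [SqN n t] {f : ℕ} {b : Ideal (OO n t)} {s : ℤ} {v : OO n t}
    (h : s0 f b s v ≠ 0) : ∃ j : ℤ, Nm v = NI b * j := by
  have h1 : v ∈ cjI b := by
    unfold s0 at h
    by_cases h2 : v - ((s * NI b : ℤ) : OO n t) ∈ sp (f : OO n t) * cjI b
    · have h3 : v - ((s * NI b : ℤ) : OO n t) ∈ cjI b := Ideal.mul_le_right h2
      have h4 : ((s * NI b : ℤ) : OO n t) ∈ cjI b := by
        push_cast
        exact Ideal.mul_mem_left _ _ (Sft_nu b)
      have e : v = (v - ((s * NI b : ℤ) : OO n t)) + ((s * NI b : ℤ) : OO n t) := by ring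
      rw [e]
      exact Ideal.add_mem _ h3 h4
    · exact absurd (if_neg h2) h
  have h2 : cjO v ∈ b := ((aO3 n t).1 b v).1 h1
  have h3 : cjO v * v ∈ b * cjI b := Ideal.mul_mem_mul h2 h1
  rw [((aO3 n t).2.2.1 b).2.2, mul_comm, mul_cjO] at h3
  have h4 : (NI b : OO n t) ∣ ((Nm v : ℤ) : OO n t) := Ideal.mem_span_singleton.1 h3
  have h5 := ((nat_dvd_iff _ _).1 h4).1
  rw [re_int] at h5
  exact h5

private lemma Sft_sq {ν : ℕ} (h : Odd ν) : ∃ k : ℤ, (ν : ℤ) ^ 2 = 8 * k + 1 := by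
  obtain ⟨j, rfl⟩ := h
  obtain ⟨k, hk⟩ := Int.even_mul_succ_self (j : ℤ)
  exact ⟨k, by push_cast; linear_combination 4 * hk⟩

/-- The translation of the function `ev`. -/
private lemma Sft_ev [SqN n t] {b : Ideal (OO n t)} (hν : Odd (NI b)) {k : ℕ} (hk : Odd k)
    {v : OO n t} {j : ℤ} (hj : Nm v = NI b * j) :
    ev ((NI b : OO n t) * v) * ex (j * k / 4) =
      ev ((NI b : OO n t) * v) - 2 * et ((NI b : OO n t) * v) := by
  obtain ⟨i, hi⟩ := Sft_sq hν
  unfold ev et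
  rw [Nm_mul, Nm_nat, hj, hi]
  obtain ⟨r, hr⟩ := hν
  have e1 : (8 * i + 1) * ((NI b : ℤ) * j) = 4 * (2 * (i * ((NI b : ℤ) * j))) + (2 * (r * j) + j) := by
    rw [hr]
    push_cast
    ring
  rw [e1]
  by_cases h2 : j % 2 = 0
  · obtain ⟨a, rfl⟩ : ∃ a : ℤ, j = 2 * a := ⟨j / 2, by omega⟩
    have e2 : (r : ℤ) * (2 * a) = 2 * (r * a) := by ring
    rw [e2, if_pos (by omega)]
    obtain ⟨q, rfl⟩ := hk
    rcases Int.even_or_odd' a with ⟨c, hc | hc⟩
    · rw [if_neg (by rw [hc]; have : (r : ℤ) * (2 * c) = 2 * (r * c) := by ring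
                     rw [this]; omega)]
      have e3 : ex (((2 * a : ℤ) : ℂ) * ((2 * q + 1 : ℕ) : ℂ) / 4) = 1 := by
        rw [← Sft_int (c * (2 * q + 1)), hc]
        congr 1
        push_cast
        ring
      rw [e3]
      ring
    · rw [if_pos (by rw [hc]; have : (r : ℤ) * (2 * c + 1) = 2 * (r * c) + r := by ring
                     rw [this]; omega)]
      have e3 : ex (((2 * a : ℤ) : ℂ) * ((2 * q + 1 : ℕ) : ℂ) / 4) = -1 := by
        rw [← Sft_half, hc]
        refine Sft_congr (c * (2 * q + 1) + q) ?_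
        push_cast
        ring
      rw [e3]
      ring
  · have h3 : ¬ (4 * (2 * (i * ((NI b : ℤ) * j))) + (2 * (r * j) + j)) % 2 = 0 := by omega
    rw [if_neg h3, if_neg (by omega)]
    ring

private lemma Sft_one [Rmf n t] (h2 : S_Two) {f : ℕ} (hf : 0 < f) {b : Ideal (OO n t)}
    (hν : Odd (NI b)) {k : ℕ} (hk : Odd k) {z : ℂ} (hz : 0 < z.im) :
    Lg 4 f b 1 ev (z + k) = Lg 4 f b 1 ev z - 2 * Lg 4 f b 1 et z := by
  have hb : 0 < NI b := hν.pos
  have hbc : (NI b : ℂ) ≠ 0 := by exact_mod_cast hb.ne'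
  have hw : 0 < (z / ((4 : ℕ) : ℂ) / (NI b : ℂ)).im := by
    rw [Complex.div_natCast_im, Complex.div_natCast_im]
    exact div_pos (div_pos hz (by norm_num)) (by exact_mod_cast hb)
  have p1 := (h2 n t).2.2.2.1
  have p2 := (h2 n t).2.2.2.2.1
  have s1 := Sft_sum hf hb 1 p1 hw
  have s2 := Sft_sum hf hb 1 p2 hw
  have key : Th (fun v => s0 f b 1 v * ev ((NI b : OO n t) * v)) ((z + k) / ((4 : ℕ) : ℂ) / NI b) =
      Th (fun v => s0 f b 1 v * ev ((NI b : OO n t) * v)) (z / ((4 : ℕ) : ℂ) / NI b) -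
      2 * Th (fun v => s0 f b 1 v * et ((NI b : OO n t) * v)) (z / ((4 : ℕ) : ℂ) / NI b) := by
    unfold Th
    have e0 : ∀ x y : ℂ, 1 / 2 * x - 2 * (1 / 2 * y) = 1 / 2 * (x - 2 * y) := fun x y => by ring
    rw [e0, ← tsum_mul_left (a := (2 : ℂ)), ← s1.tsum_sub (s2.mul_left 2)]
    congr 1
    refine tsum_congr fun v => ?_
    by_cases h0 : s0 f b 1 v = 0
    · simp only [h0, zero_mul, zero_div, mul_zero, sub_zero]
    · obtain ⟨j, hj⟩ := Sft_j h0
      have e1 : ex ((Nm v : ℂ) * ((z + k) / ((4 : ℕ) : ℂ) / NI b)) =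
          ex ((Nm v : ℂ) * (z / ((4 : ℕ) : ℂ) / NI b)) * ex (j * k / 4) := by
        rw [← Sft_add]
        congr 1
        rw [hj]
        push_cast
        field_simp
      have e2 := Sft_ev hν hk hj
      rw [e1]
      linear_combination (s0 f b 1 v / toC v * ex ((Nm v : ℂ) * (z / ((4 : ℕ) : ℂ) / NI b))) * e2
  unfold Lg
  rw [key]
  ring

private lemma Sft_gone [Rmf n t] {f : ℕ} {b : Ideal (OO n t)} (hν : Odd (NI b)) (s k : ℤ) (z : ℂ) :
    Lg 16 f b s (gE (k * NI b)) z = KK n (k * NI b) * Lg 16 f b s et (z + k) := by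
  have hb : 0 < NI b := hν.pos
  have hbc : (NI b : ℂ) ≠ 0 := by exact_mod_cast hb.ne'
  have key : Th (fun v => s0 f b s v * gE (k * NI b) ((NI b : OO n t) * v)) (z / ((16 : ℕ) : ℂ) / NI b) =
      KK n (k * NI b) * Th (fun v => s0 f b s v * et ((NI b : OO n t) * v))
        ((z + k) / ((16 : ℕ) : ℂ) / NI b) := by
    unfold Th
    have e0 : ∀ x y : ℂ, x * (1 / 2 * y) = 1 / 2 * (x * y) := fun x y => by ring
    rw [e0, ← tsum_mul_left (a := KK n (k * NI b))]
    congr 1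
    refine tsum_congr fun v => ?_
    by_cases h0 : s0 f b s v = 0
    · simp only [h0, zero_mul, zero_div, mul_zero]
    · obtain ⟨j, hj⟩ := Sft_j h0
      have e1 : ex ((Nm v : ℂ) * ((z + k) / ((16 : ℕ) : ℂ) / NI b)) =
          ex ((Nm v : ℂ) * (z / ((16 : ℕ) : ℂ) / NI b)) *
            ex (((k * NI b : ℤ) : ℂ) * (Nm ((NI b : OO n t) * v) : ℂ) / 16) := by
        rw [← Sft_add]
        obtain ⟨i, hi⟩ := Sft_sq hν
        have hi' : ((NI b : ℕ) : ℂ) ^ 2 = 8 * i + 1 := by exact_mod_cast hi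
        refine Sft_congr (-(k * j * (4 * i ^ 2 + i))) ?_
        rw [Nm_mul, Nm_nat, hj]
        push_cast
        field_simp
        linear_combination (-(k : ℂ) * j) * (((NI b : ℕ) : ℂ) ^ 2 + 8 * i + 1) * hi'
      rw [e1]
      unfold gE
      ring
  unfold Lg
  rw [key]
  ring

theorem tSft (h2 : S_Two) : S_Sft := by
  intro n t _ f m b hm hb
  have hf0 : 0 < f := hm.odd.pos
  have h6 := (aO6 n t).2.2.1
  have o1 : Odd (NI m) := CV_NI_odd hm.two
  have o2 : Odd (NI b) := by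
    have h1 := (h6 (2 * f) b (by omega)).1 hb.cop
    exact Nat.coprime_two_right.1 (Nat.Coprime.coprime_dvd_right (dvd_mul_right 2 f) h1)
  have o3 : Odd (NI (m * b)) := by
    rw [CV_NI_mul]
    exact o1.mul o2
  refine ⟨fun z hz => ?_, fun c z hz => ?_, fun s g z => ?_⟩
  · have hz' : 0 < ((NI m : ℂ) * z).im := by
      rw [Complex.mul_im, Complex.natCast_re, Complex.natCast_im, zero_mul, add_zero]
      exact mul_pos (by exact_mod_cast o1.pos) hz
    have e1 := Sft_one h2 hf0 o3 (k := 1) odd_one hz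
    have e2 := Sft_one h2 hf0 o2 (k := NI m) o1 hz'
    rw [Nat.cast_one] at e1
    unfold Hg
    rw [e1, mul_add, mul_one, e2]
    ring
  · have e1 := Sft_gone (f := f) o3 2 c z
    have e2 := Sft_gone (f := f) o2 2 (c * NI m) ((NI m : ℂ) * z)
    have e3 : c * (NI m : ℤ) * NI b = c * NI (m * b) := by
      rw [CV_NI_mul]
      push_cast
      ring
    have e4 : (NI m : ℂ) * z + ((c * NI m : ℤ) : ℂ) = NI m * (z + c) := by
      push_cast
      ring
    rw [e3, e4] at e2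
    unfold Hg
    rw [e1, e2]
    ring
  · unfold Hg Lg
    have e1 : z / 2 / ((4 : ℕ) : ℂ) = z / ((8 : ℕ) : ℂ) := by
      push_cast
      ring
    have e2 : (NI m : ℂ) * (z / 2) / ((4 : ℕ) : ℂ) = NI m * z / ((8 : ℕ) : ℂ) := by
      push_cast
      ring
    rw [e1, e2]

end Pool.Agent.DR.C
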