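import Pool.Agent.Lib.DR.C.Spec9
import Pool.Agent.Lib.DN.Ded
import Pool.Agent.Lib.DN.CV.Bas

/-!
# Part C for DR, module Two: the functions on `O/2` and the system `tm2` (author helper33)
-/

set_option autoImplicit false

open scoped Pointwise Topology nonZeroDivisors
open Filter

noncomputable section

namespace Pool.Agent.DR.C

open Pool.Agent.MuZ Pool.Agent.FW NumberField Pool.Agent.DR Pool.Agent.DN
open Pool.Agent.DI (io ofC io_inj exists_io io_ofC ofC_io VP MP UP TP ex sqr sqr_sq kap)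
open Pool.Agent.DN.C (rsum PerO Th)
open Pool.Agent.DS.C (ftp Ts Hs Pf h0 T0 Lg Hg s0)

variable {n t : ℕ}

theorem Two_nm [h : Rmf n t] (x y : ℤ) : Nm (⟨x, y⟩ : OO n t) = x ^ 2 + n * y ^ 2 := by
  have ht := h.zero
  subst ht
  unfold Nm
  push_cast
  ring

theorem Two_nm' [Rmf n t] (v : OO n t) : Nm v = v.re ^ 2 + n * v.im ^ 2 := Two_nm v.re v.im

/-- `N(v)` modulo `2`. -/
theorem Two_par [Rmf n t] (v : OO n t) : Nm v % 2 = (v.re + n * v.im) % 2 := by
  rw [Two_nm']
  have h2 : ∀ x : ℤ, (2 : ℤ) ∣ x ^ 2 - x := by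
    intro x
    rcases Int.even_or_odd' x with ⟨a, ha | ha⟩
    · exact ⟨2 * a ^ 2 - a, by rw [ha]; ring⟩
    · exact ⟨2 * a ^ 2 + a, by rw [ha]; ring⟩
  have h3 : (2 : ℤ) ∣ (v.re ^ 2 + n * v.im ^ 2) - (v.re + n * v.im) := by
    have e : (v.re ^ 2 + n * v.im ^ 2) - (v.re + n * v.im) =
        (v.re ^ 2 - v.re) + n * (v.im ^ 2 - v.im) := by ring
    rw [e]
    exact dvd_add (h2 _) (Dvd.dvd.mul_left (h2 _) _)
  omega

theorem Two_sq0 {x : ℤ} (h : x % 2 = 0) : x ^ 2 % 4 = 0 := by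
  obtain ⟨a, rfl⟩ : ∃ a, x = 2 * a := ⟨x / 2, by omega⟩
  have e : (2 * a) ^ 2 = 4 * a ^ 2 := by ring
  rw [e]
  omega

theorem Two_sq1 {x : ℤ} (h : x % 2 = 1) : x ^ 2 % 4 = 1 := by
  obtain ⟨a, rfl⟩ : ∃ a, x = 2 * a + 1 := ⟨x / 2, by omega⟩
  have e : (2 * a + 1) ^ 2 = 4 * (a ^ 2 + a) + 1 := by ring
  rw [e]
  omega

theorem Two_par' [Rmf n t] (v : OO n t) : Nm v % 2 = 1 ↔
    (n % 2 = 1 ∧ (v.re + v.im) % 2 = 1 ∨ n % 2 = 0 ∧ v.re % 2 = 1) := by
  rw [Two_par]
  rcases Nat.mod_two_eq_zero_or_one n with h | h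
  · obtain ⟨c, hc⟩ : ∃ c : ℤ, (n : ℤ) = 2 * c := ⟨(n : ℤ) / 2, by omega⟩
    have e : v.re + n * v.im = v.re + 2 * (c * v.im) := by linear_combination v.im * hc
    rw [e]
    omega
  · obtain ⟨c, hc⟩ : ∃ c : ℤ, (n : ℤ) = 2 * c + 1 := ⟨(n : ℤ) / 2, by omega⟩
    have e : v.re + n * v.im = v.re + v.im + 2 * (c * v.im) := by linear_combination v.im * hc
    rw [e]
    omega

theorem Two_odd [Rmf n t] (h : n % 2 = 1) (x y : ℤ) :
    Nm (⟨x, y⟩ : OO n t) % 4 = 2 ↔ x % 2 = 1 ∧ y % 2 = 1 := by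
  have h4 : n % 4 = 1 := by
    rcases (sO4 n t).1 with h1 | h1 <;> omega
  obtain ⟨c, hc⟩ : ∃ c : ℤ, (n : ℤ) = 4 * c + 1 := ⟨(n : ℤ) / 4, by omega⟩
  have e : Nm (⟨x, y⟩ : OO n t) = x ^ 2 + y ^ 2 + 4 * (c * y ^ 2) := by
    rw [Two_nm, hc]
    ring
  rw [e]
  rcases Int.emod_two_eq_zero_or_one x with hx | hx <;>
    rcases Int.emod_two_eq_zero_or_one y with hy | hy
  · have a := Two_sq0 hx
    have b := Two_sq0 hy
    omega
  · have a := Two_sq0 hx
    have b := Two_sq1 hy
    omega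
  · have a := Two_sq1 hx
    have b := Two_sq0 hy
    omega
  · have a := Two_sq1 hx
    have b := Two_sq1 hy
    omega

theorem Two_even [Rmf n t] (h : n % 2 = 0) (x y : ℤ) :
    Nm (⟨x, y⟩ : OO n t) % 4 = 2 ↔ x % 2 = 0 ∧ y % 2 = 1 := by
  have h4 : n % 4 = 2 := by
    rcases (sO4 n t).1 with h1 | h1 <;> omega
  obtain ⟨c, hc⟩ : ∃ c : ℤ, (n : ℤ) = 4 * c + 2 := ⟨(n : ℤ) / 4, by omega⟩
  have e : Nm (⟨x, y⟩ : OO n t) = x ^ 2 + 2 * y ^ 2 + 4 * (c * y ^ 2) := by
    rw [Two_nm, hc]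
    ring
  rw [e]
  rcases Int.emod_two_eq_zero_or_one x with hx | hx <;>
    rcases Int.emod_two_eq_zero_or_one y with hy | hy
  · have a := Two_sq0 hx
    have b := Two_sq0 hy
    omega
  · have a := Two_sq0 hx
    have b := Two_sq1 hy
    omega
  · have a := Two_sq1 hx
    have b := Two_sq0 hy
    omega
  · have a := Two_sq1 hx
    have b := Two_sq1 hy
    omega

/-- Periodicity modulo `4` of the norm under `2 O`. -/
theorem Two_per [Rmf n t] (v u : OO n t) : Nm (v + ((2 : ℕ) : OO n t) * u) % 4 = Nm v % 4 := by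
  have e : Nm (v + ((2 : ℕ) : OO n t) * u) =
      Nm v + 4 * (v.re * u.re + u.re ^ 2 + n * (v.im * u.im + u.im ^ 2)) := by
    rw [Two_nm', Two_nm', QuadraticAlgebra.re_add, QuadraticAlgebra.im_add, re_mul, im_mul, re_nat,
      im_nat]
    push_cast
    ring
  rw [e]
  omega

theorem Two_d2 (v : OO n t) (w : OO n t) : ((2 : ℕ) : OO n t) ∣ v - w ↔
    (v.re - w.re) % 2 = 0 ∧ (v.im - w.im) % 2 = 0 := by
  rw [nat_dvd_iff, QuadraticAlgebra.re_sub, QuadraticAlgebra.im_sub]
  push_cast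
  omega

theorem tTwo : S_Two := by
  classical
  intro n t _
  have hO := sO4 n t
  have c1 : ∀ v : OO n t, Cop v 2 ↔ Nm v % 2 = 1 := by
    intro v
    rw [hO.2.2.2.2.2.2.2.1 v]
    omega
  have c2 : ∀ v : OO n t, v ∈ pp n t ↔ Nm v % 2 = 0 := by
    intro v
    have h1 := hO.2.2.2.2.2.2.1 v
    have h2 := c1 v
    constructor
    · intro h
      have h3 : ¬ Nm v % 2 = 1 := fun h4 => h1.1 (h2.2 h4) h
      omega
    · intro h
      by_contra h3
      have h4 := h2.1 (h1.2 h3)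
      omega
  have p1 : PerO 2 (od (n := n) (t := t)) := by
    intro v u
    unfold od
    have h := Two_per v u
    have h1 : (Nm (v + ((2 : ℕ) : OO n t) * u) % 2 = 1) = (Nm v % 2 = 1) := by
      apply propext
      omega
    simp only [h1]
  have p2 : PerO 2 (ev (n := n) (t := t)) := by
    intro v u
    unfold ev
    have h := Two_per v u
    have h1 : (Nm (v + ((2 : ℕ) : OO n t) * u) % 2 = 0) = (Nm v % 2 = 0) := by
      apply propext
      omega
    simp only [h1]
  have p3 : PerO 2 (et (n := n) (t := t)) := by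
    intro v u
    unfold et
    rw [Two_per v u]
  refine ⟨c1, c2, p1, p2, p3, fun h => Two_odd h, fun h => Two_even h, fun f hf => ?_⟩
  have hf2 : (f : ℤ) % 2 = 1 := by
    have := Nat.odd_iff.1 hf
    omega
  have hne : (1 : OO n t) ≠ ⟨1 - f * (n % 2 : ℕ), f⟩ := by
    intro h
    have h1 := congrArg QuadraticAlgebra.im h
    rw [im_one] at h1
    simp only at h1
    omega
  have sys : ∀ α ∈ tm2 n t f, (f : OO n t) ∣ α - 1 ∧ Cop α 2 ∧ od α = 1 := by
    intro α hα
    have hcop : ∀ v : OO n t, Nm v % 2 = 1 → Cop v 2 ∧ od v = 1 := by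
      intro v hv
      exact ⟨(c1 v).2 hv, by unfold od; rw [if_pos hv]⟩
    unfold tm2 at hα
    rw [Finset.mem_insert, Finset.mem_singleton] at hα
    rcases hα with rfl | rfl
    · refine ⟨by rw [sub_self]; exact dvd_zero _, hcop _ ?_⟩
      rw [Nm_one]
      norm_num
    · refine ⟨?_, hcop _ ?_⟩
      · rw [nat_dvd_iff, QuadraticAlgebra.re_sub, QuadraticAlgebra.im_sub, re_one, im_one]
        exact ⟨⟨-((n % 2 : ℕ) : ℤ), by push_cast; ring⟩, ⟨1, by ring⟩⟩
      · rw [Two_par']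
        rcases Nat.mod_two_eq_zero_or_one n with h | h
        · right
          refine ⟨h, ?_⟩
          simp only
          rw [h]
          norm_num
        · left
          refine ⟨h, ?_⟩
          simp only
          rw [h]
          push_cast
          omega
  refine ⟨sys, fun α hα => ⟨(sys α hα).1, (sys α hα).2.1⟩, p1, fun v => ?_⟩
  have e1 := (sys 1 (by unfold tm2; simp)).2.2
  have e2 := (sys (⟨1 - f * (n % 2 : ℕ), f⟩ : OO n t) (by unfold tm2; simp)).2.2
  unfold tm2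
  rw [Finset.sum_pair hne, e1, e2]
  have hv := Two_par' v
  rcases Nat.mod_two_eq_zero_or_one n with h | h
  · have d1 := Two_d2 v 1
    have d2 := Two_d2 v (⟨1 - f * (n % 2 : ℕ), f⟩ : OO n t)
    rw [re_one, im_one] at d1
    simp only [h] at d2 hv ⊢
    by_cases hr : v.re % 2 = 1
    · have hod : od v = 1 := by
        unfold od
        exact if_pos (hv.2 (Or.inr ⟨trivial, hr⟩))
      rw [hod]
      by_cases hi : v.im % 2 = 0
      · rw [if_pos (d1.2 (by omega)), if_neg (fun h5 => by have := d2.1 h5; push_cast at this; omega),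
          add_zero]
      · rw [if_neg (fun h5 => by have := d1.1 h5; omega),
          if_pos (d2.2 (by push_cast; omega)), zero_add]
    · have hod : od v = 0 := by
        unfold od
        exact if_neg fun h5 => by have := hv.1 h5; omega
      rw [hod, if_neg (fun h5 => by have := d1.1 h5; omega),
        if_neg (fun h5 => by have := d2.1 h5; push_cast at this; omega), add_zero]
  · have d1 := Two_d2 v 1
    have d2 := Two_d2 v (⟨1 - f * (n % 2 : ℕ), f⟩ : OO n t)
    rw [re_one, im_one] at d1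
    simp only [h] at d2 hv ⊢
    by_cases hr : (v.re + v.im) % 2 = 1
    · have hod : od v = 1 := by
        unfold od
        exact if_pos (hv.2 (Or.inl ⟨trivial, hr⟩))
      rw [hod]
      by_cases hi : v.im % 2 = 0
      · rw [if_pos (d1.2 (by omega)), if_neg (fun h5 => by have := d2.1 h5; push_cast at this; omega),
          add_zero]
      · rw [if_neg (fun h5 => by have := d1.1 h5; omega),
          if_pos (d2.2 (by push_cast; omega)), zero_add]
    · have hod : od v = 0 := by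
        unfold od
        exact if_neg fun h5 => by have := hv.1 h5; omega
      rw [hod, if_neg (fun h5 => by have := d1.1 h5; omega),
        if_neg (fun h5 => by have := d2.1 h5; push_cast at this; omega), add_zero]

end Pool.Agent.DR.C
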