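import Pool.Agent.Lib.DR.C.Spec9

/-!
# Part C for DR, hidden symmetries, module Uoe: hidden symmetries on the upper half plane
-/

set_option autoImplicit false

open scoped Pointwise Topology nonZeroDivisors
open Filter

noncomputable section

namespace Pool.Agent.DR.C

open Pool.Agent.MuZ Pool.Agent.FW NumberField Pool.Agent.DR Pool.Agent.DN
open Pool.Agent.DI (io ofC io_inj exists_io io_ofC ofC_io VP MP UP TP ex sqr sqr_sq kap)
open Pool.Agent.DN.C (rsum PerO Th)
open Pool.Agent.DS.C (ftp Ts Hs Pf h0 T0 Lg Hg s0)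

variable {n t : ℕ}

private lemma Uoe_mob {z : ℂ} (hz : 0 < z.im) (M : ℕ) : 0 < (z / (M * z + 1)).im := by
  have h0 : (M : ℂ) * z + 1 ≠ 0 := by
    intro h
    have h1 := congrArg Complex.im h
    simp only [Complex.add_im, Complex.mul_im, Complex.natCast_re, Complex.natCast_im, Complex.one_im,
      zero_mul, add_zero, Complex.zero_im] at h1
    rcases mul_eq_zero.1 h1 with h2 | h2
    · have h3 : (M : ℂ) = 0 := by exact_mod_cast h2
      rw [h3, zero_mul, zero_add] at h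
      exact one_ne_zero h
    · exact hz.ne' h2
  rw [Complex.div_im]
  have h1 : 0 < Complex.normSq ((M : ℂ) * z + 1) := Complex.normSq_pos.2 h0
  have e : z.im * ((M : ℂ) * z + 1).re / Complex.normSq ((M : ℂ) * z + 1) -
      z.re * ((M : ℂ) * z + 1).im / Complex.normSq ((M : ℂ) * z + 1) =
      z.im / Complex.normSq ((M : ℂ) * z + 1) := by
    simp only [Complex.add_im, Complex.add_re, Complex.mul_im, Complex.mul_re, Complex.natCast_re,
      Complex.natCast_im, Complex.one_im, Complex.one_re]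
    ring
  rw [e]
  exact div_pos hz h1

private lemma Uoe_sq {x : ℤ} (h : Odd x) : ∃ k : ℤ, x ^ 2 = 8 * k + 1 := by
  obtain ⟨j, rfl⟩ := h
  obtain ⟨k, hk⟩ := Int.even_mul_succ_self j
  exact ⟨k, by linear_combination 4 * hk⟩

private lemma Uoe_odd {x : ℤ} {k : ℕ} (hk : 2 ∣ k) (h : IsCoprime x (k : ℤ)) : Odd x := by
  rw [← Int.not_even_iff_odd]
  intro h1
  have h2 : (2 : ℤ) ∣ x := h1.two_dvd
  have h3 : (2 : ℤ) ∣ (k : ℤ) := by exact_mod_cast hk
  have h4 := h.isUnit_of_dvd' h2 h3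
  rw [Int.isUnit_iff] at h4
  omega

private lemma Uoe_pf [SqN n t] {f : ℕ} {m b : Ideal (OO n t)} (hm : FM f m) (hb : FB f b) {p : ℕ}
    (h : p = 2 ∨ p = 4) : Pf p f m b := by
  have hb2 : PrI b 2 := CV_pri_dvd hb.cop (dvd_mul_right 2 f)
  have hfo : Nat.Coprime f 2 := Nat.coprime_two_right.2 hm.odd
  rcases h with rfl | rfl
  · refine ⟨by norm_num, hm.odd.pos, hfo, fun x hx => ?_, hm.ne, hb.ne, hm.two, hb2⟩
    obtain ⟨k, hk⟩ := Uoe_sq (Uoe_odd (dvd_refl 2) hx)
    exact ⟨4 * k, by rw [hk]; push_cast; ring⟩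
  · refine ⟨by norm_num, hm.odd.pos, ?_, fun x hx => ?_, hm.ne, hb.ne, ?_, ?_⟩
    · exact Nat.Coprime.mul_right (m := 2) (n := 2) hfo hfo
    · obtain ⟨k, hk⟩ := Uoe_sq (Uoe_odd (by norm_num) hx)
      exact ⟨2 * k, by rw [hk]; push_cast; ring⟩
    · exact CV_pri_mulN (N := 2) (M := 2) hm.two hm.two
    · exact CV_pri_mulN (N := 2) (M := 2) hb2 hb2

private lemma Uoe_vt [Rmf n t] (hE : DS.C.S_Etg) (h2 : S_Two) {f : ℕ} {m b : Ideal (OO n t)}
    (hm : FM f m) (hb : FB f b) {z : ℂ} (hz : 0 < z.im) :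
    VT f m b z = 2 * f * Hg 4 f m b 1 od z := by
  obtain ⟨h3, h4⟩ := (h2 n t).2.2.2.2.2.2.2 f hm.odd
  have h5 := hE n t 2 4 f m b (tm2 n t f) od (Uoe_pf hm hb (Or.inl rfl)) (by norm_num) h4 z hz
  have h6 : VT f m b z = ∑ α ∈ tm2 n t f, od α * ((toC α)⁻¹ * T0 (2 * f) m (sp α * b) (z / ((4 : ℕ) : ℂ))) := by
    unfold VT
    refine Finset.sum_congr rfl fun α hα => ?_
    rw [(h3 α hα).2.2, one_mul]
    push_cast
    rfl
  rw [h6, h5]
  push_cast
  ring

/-- The level: `D1 f² N(m b) c = M` with an odd `c`. -/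
private lemma Uoe_lev [Rmf n t] {f M : ℕ} {m b b' : Ideal (OO n t)} (hM : IsLv f m {b, b'} M)
    {b₁ : Ideal (OO n t)} (hb : b₁ ∈ ({b, b'} : Finset (Ideal (OO n t)))) :
    ∃ c : ℕ, Odd c ∧ dO n * f ^ 2 * NI (m * b₁) * c = M := by
  have h1 : dO n * f ^ 2 * NI (m * b₁) ∣ lev f m {b, b'} := by
    unfold lev
    refine mul_dvd_mul_left _ ?_
    rw [CV_NI_mul]
    refine dvd_trans (mul_dvd_mul_left (NI m) (Finset.dvd_prod_of_mem (fun b : Ideal (OO n t) => NI b) hb)) ?_
    exact dvd_pow_self _ (by norm_num)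
  obtain ⟨c, hc⟩ := dvd_trans h1 hM.dvd
  refine ⟨c, ?_, hc.symm⟩
  have h2 := hM.odd
  rw [hc] at h2
  exact (Nat.odd_mul.1 h2).2

theorem tUoe (hU : DS.C.S_Ug) (hE : DS.C.S_Etg) (h2 : S_Two) (ho : S_Loo) (he : S_Loe) (hP : S_Pco)
    (hS : S_Sft) : S_Uoe := by
  intro n t _ f M m b b1 α α' hm hb hb1 hM hp hmp
  have hf0 : 0 < f := hm.odd.pos
  have hmb : FB f (m * b) := ⟨mul_ne_zero hm.ne hb.ne, (CV_fb hm hb).2.2.2⟩
  have hmb1 : FB f (m * b1) := ⟨mul_ne_zero hm.ne hb1.ne, (CV_fb hm hb1).2.2.2⟩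
  have hDk : Dk n t = 4 * n := (dk_dO (n := n) (t := t)).1
  have hmod := (sO4 n t).1
  have q5 : toC α ≠ 0 := toC_ne hp.a0
  have q6 : toC α' ≠ 0 := toC_ne hp.a0'
  constructor
  · intro hn z hz
    have hd : dO n = n := by
      unfold dO
      rw [if_neg (by omega)]
    obtain ⟨c, hc, hcM⟩ := Uoe_lev hM (b₁ := b) (by simp)
    rw [hd] at hcM
    have hs : Hs 2 4 2 4 4 f M c n 1 1 m b (od (n := n) (t := t)) ev :=
      { pf := Uoe_pf hm hb (Or.inl rfl)
        qf := Uoe_pf hm hb (Or.inl rfl)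
        l0 := by norm_num
        k0 := by norm_num
        l1 := by norm_num
        ss := by norm_num
        dd := by rw [hDk]; ring
        de := by rw [hDk]; ring
        lev := hcM
        per := (h2 n t).2.2.1
        per' := (h2 n t).2.2.2.1
        loc := by
          intro u
          have h := ho n t f c hn hm.odd hc u
          rw [h] }
    obtain ⟨C, hC⟩ := hU n t 2 4 2 4 4 f M c n 1 1 m b od ev hs
    have hz1 : 0 < (z + 1).im := by
      rw [Complex.add_im, Complex.one_im, add_zero]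
      exact hz
    have hz2 : 0 < (2 * z).im := by
      have : (2 * z).im = 2 * z.im := by simp
      rw [this]
      positivity
    rw [Uoe_vt hE h2 hm hb (Uoe_mob hz1 M), Uoe_vt hE h2 hm hb (Uoe_mob hz M), Uoe_vt hE h2 hm hb1 hz2,
      hC _ hz1, hC _ hz, (hS n t f m b hm hb).1 z hz]
    have e1 := (hP n t f (m * b) (m * b1) α α' hm.odd hmb hmb1 hmp z).1
    have e2 := (hP n t f b b1 α α' hm.odd hb hb1 hp (NI m * z)).1
    have e3 : Hg 4 f m b 1 et z = toC α' / toC α * Hg 4 f m b1 1 od (2 * z) := by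
      unfold Hg
      rw [e1, e2]
      have e4 : (2 : ℂ) * (NI m * z) = NI m * (2 * z) := by ring
      rw [e4]
      ring
    rw [e3]
    ring
  · intro hn c hc
    have hd : dO n = n / 2 := by
      unfold dO
      rw [if_pos hn]
    obtain ⟨c', hc', hcM⟩ := Uoe_lev hM (b₁ := b1) (by simp)
    rw [hd] at hcM
    obtain ⟨m', hm'⟩ : ∃ m' : ℕ, n = 2 * m' := ⟨n / 2, by omega⟩
    have hn2 : n / 2 = m' := by omega
    have oN : Odd (NI (m * b1) : ℤ) := by
      have h5 : PrI (m * b1) 2 := CV_pri_dvd hmb1.cop (dvd_mul_right 2 f)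
      exact_mod_cast CV_NI_odd h5
    have hec : (4 : ℤ) ∣ c * NI (m * b1) + c' * (n / 2 : ℕ) := by
      obtain ⟨k, hk⟩ := Uoe_sq oN
      obtain ⟨k', hk'⟩ := Uoe_sq (x := (f : ℤ)) (by exact_mod_cast hm.odd)
      obtain ⟨r, hr⟩ := hc
      rw [hn2] at hcM ⊢
      have h6 : (M : ℤ) = m' * f ^ 2 * NI (m * b1) * c' := by exact_mod_cast hcM.symm
      refine ⟨r * NI (m * b1) - m' * c' * (2 * k' * (8 * k + 1) + 2 * k), ?_⟩
      have h7 : (M : ℤ) * NI (m * b1) = m' * c' * ((8 * k' + 1) * (8 * k + 1)) := by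
        rw [h6, ← hk, ← hk']
        ring
      linear_combination (NI (m * b1) : ℤ) * hr - h7
    obtain ⟨hp4, hloc⟩ := he n t f c' (c * NI (m * b1)) hn hm.odd hc' hec
    have hs : Hs 2 4 4 16 8 f M c' (n / 2) 1 2 m b1 (od (n := n) (t := t)) (gE (c * NI (m * b1))) :=
      { pf := Uoe_pf hm hb1 (Or.inl rfl)
        qf := Uoe_pf hm hb1 (Or.inr rfl)
        l0 := by norm_num
        k0 := by norm_num
        l1 := by norm_num
        ss := by norm_num
        dd := by rw [hDk]; omega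
        de := by rw [hDk]; omega
        lev := hcM
        per := (h2 n t).2.2.1
        per' := hp4
        loc := by
          intro u
          have h := hloc u
          rw [← h]
          push_cast
          ring }
    obtain ⟨C, hC⟩ := hU n t 2 4 4 16 8 f M c' (n / 2) 1 2 m b1 od (gE (c * NI (m * b1))) hs
    refine ⟨2 * f * C, fun z hz => ?_⟩
    have hz1 : 0 < ((z + c) / 2).im := by
      have : ((z + c) / 2).im = z.im / 2 := by simp
      rw [this]
      positivity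
    obtain ⟨-, s2, s3⟩ := hS n t f m b hm hb
    obtain ⟨-, s2', -⟩ := hS n t f m b1 hm hb1
    rw [Uoe_vt hE h2 hm hb1 (Uoe_mob hz M), Uoe_vt hE h2 hm hb hz1, hC _ hz, s2' c z hz, s3]
    have e1 := (hP n t f (m * b) (m * b1) α α' hm.odd hmb hmb1 hmp (z + c)).2
    have e2 := (hP n t f b b1 α α' hm.odd hb hb1 hp (NI m * (z + c))).2
    have e3 : Hg 8 f m b 1 od (z + c) = 2 * (toC α' / toC α) * Hg 16 f m b1 2 et (z + c) := by
      unfold Hg
      rw [e1, e2]
      ring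
    rw [e3]
    field_simp

end Pool.Agent.DR.C
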