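import Pool.Agent.Lib.DR.C.Spec9

/-!
# Part C for DR: the hidden symmetries of the values (helper95)
-/

set_option autoImplicit false

open scoped Pointwise Topology nonZeroDivisors
open Filter

noncomputable section

namespace Pool.Agent.DR.C

open Pool.Agent.MuZ Pool.Agent.FW NumberField Pool.Agent.DR Pool.Agent.DN
open Pool.Agent.DI (io ofC io_inj exists_io io_ofC ofC_io VP MP UP TP ex sqr sqr_sq kap)
open Pool.Agent.DN.C (rsum PerO Th)
open Pool.Agent.DS.C (ftp Ts Hs Pf h0 T0 Lg Hg s0)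

variable {n t : ℕ}

private theorem Voe_lim (hL : DS.C.S_Elm) (h2 : S_Two) [Rmf n t] {f M : ℕ} {m b : Ideal (OO n t)}
    (hm : FM f m) (hb : FB f b) :
    (∀ r : ℚ, Tendsto (fun y : ℝ => VT f m b (r + y * Complex.I)) (𝓝[>] 0) (𝓝 (VR f m b (r / 4)))) ∧
    ∀ r : ℚ, (M : ℚ) * r + 1 ≠ 0 →
      Tendsto (fun y : ℝ => VT f m b ((r + y * Complex.I) / (M * (r + y * Complex.I) + 1))) (𝓝[>] 0)
        (𝓝 (VR f m b (r / (M * r + 1) / 4))) := by
  obtain ⟨-, -, -, -, -, -, -, h3⟩ := h2 n t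
  obtain ⟨h4, -⟩ := h3 f hm.odd
  obtain ⟨-, h5⟩ := hL n t 2 4 f M m b (tm2 n t f) (fun _ => 1) (by norm_num) (fm_g hm) (fb_g hb)
    (fun α hα => ⟨(h4 α hα).1, (h4 α hα).2.1⟩)
  constructor
  · intro r
    have h6 := (h5 r).1
    simp only [one_mul, Nat.cast_ofNat] at h6
    exact h6
  · intro r hr
    have h6 := (h5 r).2 hr
    simp only [one_mul, Nat.cast_ofNat] at h6
    exact h6

private theorem Voe_scale {c : ℝ} (hc : 0 < c) : Tendsto (fun y : ℝ => c * y) (𝓝[>] 0) (𝓝[>] 0) := by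
  refine tendsto_nhdsWithin_iff.2 ⟨?_, ?_⟩
  · have h : Tendsto (fun y : ℝ => c * y) (𝓝 0) (𝓝 (c * 0)) := tendsto_id.const_mul c
    rw [mul_zero] at h
    exact h.mono_left nhdsWithin_le_nhds
  · filter_upwards [self_mem_nhdsWithin] with y hy
    exact mul_pos hc hy

theorem tVoe (hU : S_Uoe) (hL : DS.C.S_Elm) (h2 : S_Two) : S_Voe := by
  intro n t _ f M m b b1 α α' hm hb hb1 hM hp hp'
  obtain ⟨u1, u2⟩ := hU n t f M m b b1 α α' hm hb hb1 hM hp hp'
  obtain ⟨lb1, lb2⟩ := Voe_lim hL h2 (M := M) hm hb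
  obtain ⟨lc1, lc2⟩ := Voe_lim hL h2 (M := M) hm hb1
  constructor
  · intro hn r hr1 hr2
    have k1 := lb2 (r + 1) hr2
    have k2 := lb2 r hr1
    have k3 := (lc1 (2 * r)).comp (Voe_scale (c := 2) two_pos)
    have k4 := (k1.sub k2)
    have k5 : Tendsto (fun y : ℝ => -2 * (toC α' / toC α) * VT f m b1 (((2 * r : ℚ) : ℂ) + ((2 * y : ℝ) : ℂ) * Complex.I))
        (𝓝[>] 0) (𝓝 (-2 * (toC α' / toC α) * VR f m b1 (2 * r / 4))) := k3.const_mul _
    refine tendsto_nhds_unique_of_eventuallyEq k4 k5 ?_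
    filter_upwards [self_mem_nhdsWithin] with y hy
    have hy0 : (0 : ℝ) < y := hy
    have him : 0 < ((r : ℂ) + y * Complex.I).im := by
      simp [hy0]
    have h := u1 hn ((r : ℂ) + y * Complex.I) him
    have e1 : (((r + 1 : ℚ) : ℂ) + (y : ℂ) * Complex.I) = (r : ℂ) + y * Complex.I + 1 := by
      push_cast; ring
    have e2 : (((2 * r : ℚ) : ℂ) + ((2 * y : ℝ) : ℂ) * Complex.I) = 2 * ((r : ℂ) + y * Complex.I) := by
      push_cast; ring
    rw [e1, e2]
    exact h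
  · intro hn c hc r hr
    obtain ⟨C, hC⟩ := u2 hn c hc
    have key : ∀ r : ℚ, (M : ℚ) * r + 1 ≠ 0 → VR f m b1 (r / (M * r + 1) / 4) =
        KK n (c * NI (m * b1)) / 2 * (toC α / toC α') * VR f m b ((r + c) / 2 / 4) + C := by
      intro r hr
      have k1 := lc2 r hr
      have k3 := (lb1 ((r + c) / 2)).comp (Voe_scale (c := 1 / 2) (by norm_num))
      have k5 : Tendsto (fun y : ℝ => KK n (c * NI (m * b1)) / 2 * (toC α / toC α') *
          VT f m b ((((r + c) / 2 : ℚ) : ℂ) + ((1 / 2 * y : ℝ) : ℂ) * Complex.I) + C)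
          (𝓝[>] 0) (𝓝 (KK n (c * NI (m * b1)) / 2 * (toC α / toC α') * VR f m b ((r + c) / 2 / 4) + C)) :=
        (k3.const_mul _).add_const _
      refine tendsto_nhds_unique_of_eventuallyEq k1 k5 ?_
      filter_upwards [self_mem_nhdsWithin] with y hy
      have hy0 : (0 : ℝ) < y := hy
      have him : 0 < ((r : ℂ) + y * Complex.I).im := by
        simp [hy0]
      have h := hC ((r : ℂ) + y * Complex.I) him
      have e2 : ((((r + c) / 2 : ℚ) : ℂ) + ((1 / 2 * y : ℝ) : ℂ) * Complex.I) =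
          ((r : ℂ) + y * Complex.I + c) / 2 := by
        push_cast; ring
      rw [e2]
      exact h
    have h0 := key 0 (by simp)
    have h1 := key r hr
    have e0 : (0 : ℚ) / ((M : ℚ) * 0 + 1) / 4 = 0 := by simp
    rw [e0, zero_add] at h0
    rw [h1, h0]
    ring

end Pool.Agent.DR.C
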