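import Pool.Agent.Lib.DS.C.All9
import Pool.Agent.Lib.DR.C.C18
import Pool.Agent.Lib.DR.C.Two
import Pool.Agent.Lib.DR.C.Loo
import Pool.Agent.Lib.DR.C.Loe
import Pool.Agent.Lib.DR.C.Rix
import Pool.Agent.Lib.DR.C.Pex
import Pool.Agent.Lib.DR.C.Pco
import Pool.Agent.Lib.DR.C.Sft
import Pool.Agent.Lib.DR.C.Uoe
import Pool.Agent.Lib.DR.C.Voe
import Pool.Agent.Lib.DR.C.Rp2
import Pool.Agent.Lib.DR.C.Kco
import Pool.Agent.Lib.DR.C.C9

/-!
# Part C for DR (`2` ramified): assembly (author helper33)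

`aC3`, `aC7` without hypotheses; `aC1`, `aC2`, `aC4`, `aC6`, `aC9o`, `aC9e` from `DS.S_R1`; `aC8` from `DS.S_C8`.
-/

set_option autoImplicit false

noncomputable section

namespace Pool.Agent.DR.C

open Pool.Agent.DN Pool.Agent.DR

theorem aTwo : S_Two := tTwo
theorem aLoo : S_Loo := tLoo aTwo
theorem aLoe : S_Loe := tLoe aTwo
theorem aRix : S_Rix := tRix
theorem aPex : S_Pex := tPex
theorem aPco : S_Pco := tPco aRix aTwo
theorem aSft : S_Sft := tSft aTwo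
theorem aUoe : S_Uoe := tUoe DS.C.aUg DS.C.aEtg aTwo aLoo aLoe aPco aSft
theorem aVoe : S_Voe := tVoe aUoe DS.C.aElm aTwo
theorem aRp2 (hR : DS.S_R1) : S_Rp2 := tRp2 hR DS.C.aLh aTwo
theorem aKco : S_Kco := tKco

end Pool.Agent.DR.C

namespace Pool.Agent.DR

open Pool.Agent.DN

theorem aC1 (hR : DS.S_R1) : S_C1 := tC1 hR
theorem aC2 (hR : DS.S_R1) : S_C2 := tC2 hR
theorem aC3 : S_C3 := tC3
theorem aC4 (hR : DS.S_R1) : S_C4 := tC4 hR
theorem aC6 (hR : DS.S_R1) : S_C6 := tC6 hR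
theorem aC7 : S_C7 := tC7
theorem aC8 (h8 : DS.S_C8) : S_C8 := tC8 h8
theorem aC9o (hR : DS.S_R1) : S_C9o := (C.tC9 hR C.aVoe (C.aRp2 hR) C.aPex C.aKco).1
theorem aC9e (hR : DS.S_R1) : S_C9e := (C.tC9 hR C.aVoe (C.aRp2 hR) C.aPex C.aKco).2

end Pool.Agent.DR
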