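import Pool.Agent.Lib.DR.C.C18
import Pool.Agent.Lib.DS.C.Spec9

/-!
# Part C for DR: statements for `S_C9o`, `S_C9e` (author helper33)

The general machine for the hidden symmetries is `DS/C/Spec9.lean`. The functions on `O/2`: `od` (units), `ev` (`v` in `pp`), `et` (`v` of exact `pp`-order one). `n` odd: `Hs` with
`p = q = 2`, `l = k = l' = 4`, `D1 = n`, `s = s' = 1`, `g = od`, `g' = ev`, for the ideal `b`. `n` even: `Hs` with `p = 2`, `l = 4`, `q = 4`, `k = 16`, `l' = 8`, `s = 1`, `s' = 2`, `D1 = n/2`, `g = od`,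
`g' = gE`, for the ideal `b1`. The change of ideals `α b = α' pp b1` (`S_Pco`) is an exact identity of theta series.
-/

set_option autoImplicit false

open scoped Pointwise Topology nonZeroDivisors
open Filter

noncomputable section

namespace Pool.Agent.DR.C

open Pool.Agent.MuZ Pool.Agent.FW NumberField Pool.Agent.DR Pool.Agent.DN
open Pool.Agent.DI (io ofC io_inj exists_io io_ofC ofC_io VP MP UP TP ex sqr sqr_sq kap)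
open Pool.Agent.DN.C (rsum PerO Th)
open Pool.Agent.DS.C (ftp Ts Hs Pf h0 T0 Lg Hg s0)

section Defs

variable {n t : ℕ}

/-- `v` is prime to `2`. -/
def od (v : OO n t) : ℂ := if Nm v % 2 = 1 then 1 else 0

/-- `v` is in `pp`. -/
def ev (v : OO n t) : ℂ := if Nm v % 2 = 0 then 1 else 0

/-- `v` is in `pp`, not in `2 O`. -/
def et (v : OO n t) : ℂ := if Nm v % 4 = 2 then 1 else 0

/-- The constant `K = (1 - i^e) e(-e n/16)`. -/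
def KK (n : ℕ) (e : ℤ) : ℂ := (1 - ex (e / 4)) / ex (e * n / 16)

/-- `g'(v) = K et(v) e(e N(v)/16)`. -/
def gE (e : ℤ) (v : OO n t) : ℂ := KK n e * (et v * ex (e * Nm v / 16))

/-- `∑ α⁻¹ h0_(α b)(x)` over `α ∈ tm2`. -/
def VR (f : ℕ) (m b : Ideal (OO n t)) (x : ℚ) : ℂ :=
  ∑ α ∈ tm2 n t f, (toC α)⁻¹ * h0 (2 * f) m (sp α * b) x

/-- `∑ α⁻¹ T0_(α b)(z/4)` over `α ∈ tm2`. -/
def VT (f : ℕ) (m b : Ideal (OO n t)) (z : ℂ) : ℂ :=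
  ∑ α ∈ tm2 n t f, (toC α)⁻¹ * T0 (2 * f) m (sp α * b) (z / 4)

/-- `α b = α' pp b1`, `α = α' = 1` modulo `f`. -/
structure Ppx (f : ℕ) (b b1 : Ideal (OO n t)) (α α' : OO n t) : Prop where
  a0 : α ≠ 0
  a0' : α' ≠ 0
  a1 : (f : OO n t) ∣ α - 1
  a1' : (f : OO n t) ∣ α' - 1
  eq : sp α * b = sp α' * (pp n t * b1)

end Defs

/-- (module DR/C/Two; uses S_O4 = sO4 of DR/O/O4) **The functions on `O/2` and the system `tm2`.** `n` odd: `n ≡ 1` modulo `4`, `N(x + y w) = x² + n y²`: `od`: `x + y` odd; `et`: `x`, `y` odd; `n` even: `n ≡ 2`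
modulo `4`: `od`: `x` odd; `et`: `x` even, `y` odd. `tm2 = {1, 1 - f (n % 2) + f w}`: two different elements (`f ≠ 0`), `1` modulo `f`, `≡ 1` and `≡ 1 + pO` modulo `2` (`n` odd: `≡ w`), so `Ts`. (4)
`p ∣ v - α` for exactly one `α` if `v` is prime to `2`. -/
def S_Two : Prop := ∀ (n t : ℕ) [Rmf n t],
  (∀ v : OO n t, Cop v 2 ↔ Nm v % 2 = 1) ∧ (∀ v : OO n t, v ∈ pp n t ↔ Nm v % 2 = 0) ∧
  PerO 2 (od (n := n) (t := t)) ∧ PerO 2 (ev (n := n) (t := t)) ∧ PerO 2 (et (n := n) (t := t)) ∧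
  (n % 2 = 1 → ∀ x y : ℤ, Nm (⟨x, y⟩ : OO n t) % 4 = 2 ↔ x % 2 = 1 ∧ y % 2 = 1) ∧
  (n % 2 = 0 → ∀ x y : ℤ, Nm (⟨x, y⟩ : OO n t) % 4 = 2 ↔ x % 2 = 0 ∧ y % 2 = 1) ∧
  ∀ f : ℕ, Odd f → (∀ α ∈ tm2 n t f, (f : OO n t) ∣ α - 1 ∧ Cop α 2 ∧ od α = 1) ∧
    Ts 2 f (tm2 n t f) od

/-- (module DR/C/Loo; uses S_Two) **The local identity, `n` odd.** `t = 0`: `cjO ⟨x, y⟩ = ⟨x, -y⟩`, `(β cjO u).im = β.im u.re - β.re u.im`. `f` is odd: `od (f β) = od β`, `ev (f β) = ev β` (period). With `u = ⟨x, y⟩`: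
`ftp 2 f od u = (-1)^x + (-1)^y` (the terms `β = 1`, `β = w`), `ftp 2 f ev u = 1 + (-1)^(x+y)` (`β = 0`, `1 + w`). If `x + y` is odd both are `0`; `x`, `y` even: `4 ∣ Nm u`: `2 = 2`; `x`, `y` odd: `Nm u ≡ 2` modulo `4`,
`ex(-c Nm u/4) = -1` (`c` odd): `(-2) (-1) = 2`. -/
def S_Loo : Prop := ∀ (n t : ℕ) [Rmf n t] (f c : ℕ), n % 2 = 1 → Odd f → Odd c →
  ∀ u : OO n t, ftp 2 f od u * ex (-(c * Nm u) / (4 : ℕ)) = ftp 2 f ev u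

/-- (module DR/C/Loe; uses S_Two) **The local identity, `n` even.** `n = 2 m'`, `m'` odd, `c`, `e` odd, `4 ∣ e + c m'`. `u = ⟨x, y⟩`. `ftp 2 f od u = (-1)^y (1 + (-1)^x)` (`β = 1`, `1 + w`). `gE` is periodic modulo `4`
(`N(v)` modulo `16` for `v` in `pp` depends only on `v` modulo `4`), `gE (f β) = gE β` (`f² N ≡ N` modulo `16` for even `N`; `et (f β) = et β`). `ftp 4 f gE u = K ∑ e(e (x'² + n y'²)/16) i^(x' y - y' x)` over `x' = 0, 2`, `y' = 1, 3`: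
`∑_(x') = 1 + i^e (-1)^y`; `∑_(y') = E0 (i^x + i^(-x))`, `E0 = e(e n/16)` (`e(9 e n/16) = E0` since `n` is even); it is `0` for odd `x` and `2 E0 (-1)^(x/2)` for even `x`. So `ftp 4 f gE u = 2 (1 - i^e) (1 + i^e (-1)^y) (-1)^(x/2)`,
`x` even; `(1 - i^e) (1 + i^e) = 2`, `(1 - i^e)² = -2 i^e`. Left side: `x` even: `2 * 2 (-1)^y e(-c (x² + n y²)/8)`, `e(-c x²/8) = (-1)^(x/2)` (`x² = 4 (x/2)²`), `e(-c n y²/8) = 1` for even `y` (`4 ∣ m' y²`), `= i^(-c m') = i^e` for odd `y`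
(`y² ≡ 1` modulo `8`). -/
def S_Loe : Prop := ∀ (n t : ℕ) [Rmf n t] (f c : ℕ) (e : ℤ), n % 2 = 0 → Odd f → Odd c →
  (4 : ℤ) ∣ e + c * (n / 2 : ℕ) → PerO 4 (gE (n := n) (t := t) e) ∧
  ∀ u : OO n t, 2 * (ftp 2 f od u * ex (-(c * Nm u) / (8 : ℕ))) = ftp 4 f (gE e) u

/-- (module DR/C/Rix; no dependence) **Reindexing.** `A u = A' v` is a bijection between `I` and `I'` (`A I = A' I'`); `toC v = toC A/toC A' * toC u`, `Nm v = Nm A/Nm A' * Nm u`. The sums over `O` of functions with support in `I'`, `I` are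
sums over the subtypes. -/
def S_Rix : Prop := ∀ (n t : ℕ) [SqN n t] (A A' : OO n t) (I I' : Ideal (OO n t)) (g g' : OO n t → ℂ)
  (w : ℂ), A ≠ 0 → A' ≠ 0 → sp A * I = sp A' * I' → (∀ v : OO n t, v ∉ I' → g v = 0) →
  (∀ u : OO n t, u ∉ I → g' u = 0) → (∀ u ∈ I, ∀ v ∈ I', A * u = A' * v → g v = g' u) →
    Th g w = toC A' / toC A * Th g' (Nm A / Nm A' * w)

/-- (module DR/C/Pex; uses S_O7, S_O6) **The relation `Ppx` exists.** From `Ray f b (pp b1)`: `sp α0 * b = sp α0' * (pp b1)`, `α0`, `α0'` prime to `f`, `f ∣ α0 - α0'`; multiply with `β`, `α0 β = 1` modulo `f` (`cop_inv`); `β ≠ 0`.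
(2) `m * (sp α * b) = sp α * (m * b)`. (3) framing: `fr (sp α * b) = toC α * fr b`, `fr (sp α' * (pp b1)) = toC α' * fr (pp b1)` (`aB7`, third part, `15 ∣ f`; `PrI (pp b1) 15`: `NI pp = 2`). -/
def S_Pex : Prop := ∀ (n t : ℕ) [Rmf n t] (f : ℕ) (b b1 : Ideal (OO n t)), Odd f → 15 ∣ f →
  PpR f b b1 → ∃ α α' : OO n t, Ppx f b b1 α α' ∧
    (∀ m : Ideal (OO n t), Ppx f (m * b) (m * b1) α α') ∧
    toC α * fr b = toC α' * fr (pp n t * b1) ∧ fr b ≠ 0 ∧ fr b1 ≠ 0 ∧ fr (pp n t * b1) ≠ 0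

/-- (module DR/C/Pco; uses S_Rix, S_Two, S_O2, S_O3, S_O6, sO4) **Change of ideals.** `B = cjI b`, `B1 = cjI b1`, `ν = NI b`, `ν1 = NI b1` (odd), `b B = (ν)`. From `α b = α' pp b1`: `sp (α ν) * B1 = sp (α' ν1) * (pp * B)` and (times `pp`, `pp² = (2)`) `sp (α ν) * (pp * B1) =
sp (2 α' ν1) * B`; norms: `Nm α ν = 2 Nm α' ν1`. (1) `S_Rix` with `A = α ν`, `A' = α' ν1`, `I = B1`, `I' = pp * B`, `g(v) = s0 f b 1 v * et(ν v)`, `g'(u) = s0 f b1 1 u * od(ν1 u)`, `A u = A' v`: `ν1 Nm v = 2 ν Nm u`, so `Nm v ≡ 2` modulo `4` iff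
`Nm u` odd; `v - ν ∈ f B` iff `u - ν1 ∈ f B1`: `α ν (u - ν1) = α' ν1 (v - ν) + (α' - α) ν ν1`, modulo `f`, and `α ν`, `α' ν1` are prime to `f`, `f w ∈ B` implies `w ∈ B` (`ν` is prime to `f`). `v ∈ B` and `v ∈ pp` imply `v ∈ pp * B` (`ν` odd). `w = z/4/ν`:
`Nm A/Nm A' w = (2 z)/4/ν1`; `2 ν (toC A'/toC A) = 2 ν1 (toC α'/toC α)`. (2) `S_Rix` with `A = α ν`, `A' = 2 α' ν1`, `I = pp * B1`, `I' = B`, `g(v) = s0 f b 1 v * od(ν v)`, `g'(u) = s0 f b1 2 u * et(ν1 u)`, `w = z/8/ν`: `ν Nm u = 2 ν1 Nm v`,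
`α ν (u - 2 ν1) = 2 α' ν1 (v - ν) + 2 (α' - α) ν ν1`; `Nm A/Nm A' = ν/(2 ν1)`: `Nm A/Nm A' w = z/16/ν1`. -/
def S_Pco : Prop := ∀ (n t : ℕ) [Rmf n t] (f : ℕ) (b b1 : Ideal (OO n t)) (α α' : OO n t),
  Odd f → FB f b → FB f b1 → Ppx f b b1 α α' → ∀ z : ℂ,
    Lg 4 f b 1 et z = toC α' / toC α * Lg 4 f b1 1 od (2 * z) ∧
    Lg 8 f b 1 od z = 2 * (toC α' / toC α) * Lg 16 f b1 2 et z

/-- (module DR/C/Sft; uses S_Two, S_Lt or S_Bas for the summability, S_O2, S_O3) **Translations.** For `v` with `s0 f b s v ≠ 0`: `v ∈ B = cjI b`, `ν = NI b` divides `Nm v`, `Nm v = ν j`, `Nm (ν v) = ν³ j`, `ν` odd. (1) `ev(ν v) e(j (z + 1)/4) = (ev - 2 et)(ν v) e(j z/4)` (`j` even; `e(j/4) = 1` if `4 ∣ j`, `-1` if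
`j ≡ 2`); the same with `k z`, `k (z + 1)`, `k = N m` odd: `Hg = Lg (m b) - N m Lg b (N m z)`. (2) `gE(ν v)` with `e = c NI (m b)`: for `m b`: `e Nm(ν v)/16 = c ν⁴ j/16 = c j/16` modulo `1` (`ν⁴ = 1` modulo `16`); for `b`: `e = c N m ν`: `= c N m j/16` modulo `1`: `e(j N m z/16) e(c N m j/16) =
e(j N m (z + c)/16)`. (3) `Lg 4 f b s g (z/2) = Lg 8 f b s g z`. -/
def S_Sft : Prop := ∀ (n t : ℕ) [Rmf n t] (f : ℕ) (m b : Ideal (OO n t)), FM f m → FB f b →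
  (∀ z : ℂ, 0 < z.im → Hg 4 f m b 1 ev (z + 1) = Hg 4 f m b 1 ev z - 2 * Hg 4 f m b 1 et z) ∧
  (∀ (c : ℤ) (z : ℂ), 0 < z.im → Hg 16 f m b 2 (gE (c * NI (m * b))) z =
    KK n (c * NI (m * b)) * Hg 16 f m b 2 et (z + c)) ∧
  ∀ (s : ℤ) (g : OO n t → ℂ) (z : ℂ), Hg 4 f m b s g (z / 2) = Hg 8 f m b s g z

/-- (module DR/C/Uoe; uses DS.C.S_Ug, DS.C.S_Etg, S_Two, S_Loo, S_Loe, S_Pco, S_Sft) **The hidden symmetries on the upper half plane.** `VT f m b z = 2 f Hg 4 f m b 1 od z` (`S_Etg`, `Ts` of `S_Two`, `od α = 1`). (1) `n` odd: `Hs 2 4 2 4 4 f M c n 1 1 m b od ev` with `n f² NI(m b) c = M` (`IsLv`; `c` odd),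
`Dk 4 = n 16`: `Hg od (U z) = Hg ev z + C`; take the difference of `z + 1` and `z` (`S_Sft` (1)) and `S_Pco` (1) for `m b`, `m b1` and for `b`, `b1` (at `N m z`): `Hg 4 f m b 1 et z = toC α'/toC α * Hg 4 f m b1 1 od (2 z)`. (2) `n` even: `Hs 2 4 4 16 8 f M c' (n/2) 1 2 m b1 od (gE e)`, `e = c NI(m b1)`,
`(n/2) f² NI(m b1) c' = M`, so `c' (n/2) = M NI(m b1)` modulo `4` and `4 ∣ e + c' (n/2)`; `S_Sft` (2), (3), `S_Pco` (2). -/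
def S_Uoe : Prop := ∀ (n t : ℕ) [Rmf n t] (f M : ℕ) (m b b1 : Ideal (OO n t)) (α α' : OO n t),
  FM f m → FB f b → FB f b1 → IsLv f m {b, b1} M → Ppx f b b1 α α' →
  Ppx f (m * b) (m * b1) α α' →
  (n % 2 = 1 → ∀ z : ℂ, 0 < z.im →
    VT f m b ((z + 1) / (M * (z + 1) + 1)) - VT f m b (z / (M * z + 1)) =
      -2 * (toC α' / toC α) * VT f m b1 (2 * z)) ∧
  (n % 2 = 0 → ∀ c : ℤ, (4 : ℤ) ∣ M + c → ∃ C : ℂ, ∀ z : ℂ, 0 < z.im →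
    VT f m b1 (z / (M * z + 1)) =
      KK n (c * NI (m * b1)) / 2 * (toC α / toC α') * VT f m b ((z + c) / 2) + C)

/-- (module DR/C/Voe; uses S_Uoe, DS.C.S_Elm, S_Two) **The hidden symmetries of the values.** The limits `z = r + i y`, `y → 0`, of `S_Uoe` (`S_Elm` with `p = 2`, `l = 4`, `T = tm2 n t f`, `g = 1`; at `r + 1`; at `2 r` along `2 y`; at `(r + c)/2` along `y/2`); `C` from `r = 0`. -/
def S_Voe : Prop := ∀ (n t : ℕ) [Rmf n t] (f M : ℕ) (m b b1 : Ideal (OO n t)) (α α' : OO n t),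
  FM f m → FB f b → FB f b1 → IsLv f m {b, b1} M → Ppx f b b1 α α' →
  Ppx f (m * b) (m * b1) α α' →
  (n % 2 = 1 → ∀ r : ℚ, (M : ℚ) * r + 1 ≠ 0 → (M : ℚ) * (r + 1) + 1 ≠ 0 →
    VR f m b ((r + 1) / (M * (r + 1) + 1) / 4) - VR f m b (r / (M * r + 1) / 4) =
      -2 * (toC α' / toC α) * VR f m b1 (2 * r / 4)) ∧
  (n % 2 = 0 → ∀ c : ℤ, (4 : ℤ) ∣ M + c → ∀ r : ℚ, (M : ℚ) * r + 1 ≠ 0 →
    VR f m b1 (r / (M * r + 1) / 4) - VR f m b1 0 =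
      KK n (c * NI (m * b1)) / 2 * (toC α / toC α') *
        (VR f m b ((r + c) / 2 / 4) - VR f m b ((c : ℚ) / 2 / 4)))

/-- (module DR/C/Rp2; uses DS.S_R1, DS.C.S_Lh, S_Two) **`E_b` and `VR`.** For `α ∈ tm2`: `fr (sp α * b) = toC α * fr b` (`aB7`, `α ≡ 1` modulo `15`), `io (etaM (2 f) m (α b) (r/4)) = hM .. = h0 ../(toC α fr b)` (`DS.aC4`, `S_Lh` (5); the denominator of `r/4` divides `4 r.den`, `N m` is odd). -/
def S_Rp2 : Prop := ∀ (n t : ℕ) [Rmf n t] (f : ℕ) (m b : Ideal (OO n t)), FM f m → FB f b →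
  ∀ r : ℚ, r.den.Coprime (NI m) → io (etE f m b r) * fr b = VR f m b (r / 4)

/-- (module DR/C/Kco; uses sO4) **The constant `κ`.** `κ = (1 - zet 4 ^ e)/(2 zet 16 ^ (e n))` (integer powers), `io (zet N) = ex (1/N)` (`CV_io_zet`). `κ⁴ = 1/4`: `(1 - i^e)⁴ = -4` (`(1 - i^e)² = -2 i^e`, `e` odd), `(e(e n/16))⁴ = e(e n/4) = (-1)^(e n/2) = -1`. `pO = w`,
`w² = -n`, `(κ w)⁴ = n²/4 = (n/2)²`, odd: `(κ w)⁴ - 1 ∈ 8 ℤ`, in `M_P`; `(x - 1)⁴ - (x⁴ - 1)` is in `2 V_P` for `x ∈ V_P`, and `x = κ w` is in `V_P` (`x⁴` is). -/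
def S_Kco : Prop := ∀ (n t : ℕ) [Rmf n t] (e : ℤ), n % 2 = 0 → e % 2 = 1 →
  ∃ κ : Om, io κ = KK n e / 2 ∧ ∀ P : Ideal ZZ, Ab2 P → MP P (κ * toO (pO n t) - 1)

/-- (module DR/C/C9; uses S_Voe, S_Rp2, S_Pex, S_Kco, DS.S_R1) `S_C9o`, `S_C9e`: `M r + 1 ≠ 0` by `den_ne` (DR/C/C18); the denominators of `(r + 1)/(M (r + 1) + 1)`, `2 r`, `(r + c)/2`, `c/2` are prime to `N m` (`N m` is odd, divides `M`); `S_Voe` divided by `fr b` (`n` odd), `fr b1` (`n` even);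
`io (rO b b') = fr b'/fr b` (`DS.S_R1`): `(toC α'/toC α)/fr b = 1/fr (pp b1)`, `(toC α/toC α') fr b = fr (pp b1)`; `io` is injective; `0/4 = 0`. -/
def M_C9 : Prop := S_C9o ∧ S_C9e

end Pool.Agent.DR.C
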